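import Pool.Agent.Q176.UM.QH

/-!
# Project UM2: the pair correlation function against a Dirichlet polynomial
-/

set_option autoImplicit false

namespace Pool.Agent.Q176.UM

open Pool.Agent.Q97.UM MeasureTheory Complex Filter Topology

noncomputable section

theorem om_cont {a : ℝ} {f : ℝ → ℝ} (h : Cp a f) : Continuous (om f) := by
  have e : om f = fun z : ℂ => ∫ v in Set.Icc (-a) a, (f v : ℂ) * cexp (I * (v * z)) := by
    funext z
    unfold om
    rw [setIntegral_eq_integral_of_forall_compl_eq_zero]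
    intro v hv
    have h1 : a ≤ |v| := by
      by_contra hcon
      exact hv (abs_le.1 (not_le.1 hcon).le)
    rw [h.supp v h1]
    simp
  rw [e]
  have hc := h.cont
  have := continuous_parametric_integral_of_continuous (μ := (volume : Measure ℝ))
    (f := fun (z : ℂ) (v : ℝ) => (f v : ℂ) * cexp (I * (v * z))) (s := Set.Icc (-a) a)
    (by
      show Continuous fun p : ℂ × ℝ => (f p.2 : ℂ) * cexp (I * (p.2 * p.1))
      fun_prop) isCompact_Icc
  exact this

theorem Zt_cont {a : ℝ} {w : ℝ → ℝ} (h : Cp a w) (T : ℝ) :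
    Continuous (fun p : ℝ × ℝ => Zt w T p.1 p.2) := by
  have hc := om_cont h
  unfold Zt
  refine continuous_finsetSum _ fun s _ => ?_
  refine continuous_const.mul ((Continuous.mul ?_ ?_).mul ?_)
  · fun_prop
  · refine Continuous.pow (hc.comp ?_) 2
    fun_prop
  · fun_prop

theorem dp_cont (N : ℕ) (b : ℕ → ℂ) : Continuous (dp N b) := by
  unfold dp
  refine continuous_finsetSum _ fun n hn => ?_
  have h1 : (n : ℂ) ≠ 0 := by
    have := (Finset.mem_Icc.1 hn).1
    exact_mod_cast (by omega : n ≠ 0)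
  refine continuous_const.mul (Continuous.const_cpow (by fun_prop) (Or.inl h1))

theorem W_cont {a : ℝ} {w : ℝ → ℝ} (h : Cp a w) (T c x y : ℝ) (N : ℕ) (b : ℕ → ℂ) :
    Continuous (fun α : ℝ => ∫ t in x..y, ‖Zt w T (c * α) t‖ ^ 2 * ‖dp N b t‖ ^ 2) := by
  have h1 := Zt_cont h T
  have h2 := dp_cont N b
  refine intervalIntegral.continuous_parametric_intervalIntegral_of_continuous'
    (f := fun (α : ℝ) (t : ℝ) => ‖Zt w T (c * α) t‖ ^ 2 * ‖dp N b t‖ ^ 2) ?_ x y
  show Continuous fun p : ℝ × ℝ => ‖Zt w T (c * p.1) p.2‖ ^ 2 * ‖dp N b p.2‖ ^ 2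
  have h4 : Continuous fun p : ℝ × ℝ => ((c * p.1, p.2) : ℝ × ℝ) := by fun_prop
  have h3 := h1.comp h4
  simp only [Function.comp_def] at h3
  exact (h3.norm.pow 2).mul ((h2.comp continuous_snd).norm.pow 2)

theorem ql_pt {q : ℝ → ℝ} {E lam δ D L α ρ : ℝ} (hE : 0 ≤ E) (hlam : 0 < lam) (hδ : 0 < δ)
    (hL : 1 ≤ L) (ht : ∀ x : ℝ, 2 * δ * L ≤ |x| → |q x| ≤ D * Real.exp (-(|x| - 2 * δ * L) ^ 2 / 2))
    (hα0 : 0 ≤ α) (hα1 : α ≤ 1) (h2 : |ρ| ≤ E * α) :
    |ρ| * q (lam * L * α) ^ 2 ≤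
      E * (3 * δ / lam) * q (lam * L * α) ^ 2 + E * D ^ 2 / (δ ^ 2 * L) := by
  have hL0 : 0 < L := by linarith
  by_cases hα1 : α ≤ 3 * δ / lam
  · have h3 : |ρ| * q (lam * L * α) ^ 2 ≤ E * (3 * δ / lam) * q (lam * L * α) ^ 2 :=
      mul_le_mul_of_nonneg_right (h2.trans (mul_le_mul_of_nonneg_left hα1 hE)) (sq_nonneg _)
    have h4 : 0 ≤ E * D ^ 2 / (δ ^ 2 * L) := by positivity
    linarith
  · have h3 : 3 * δ ≤ α * lam := by
      have := not_le.1 hα1
      rw [div_lt_iff₀ hlam] at this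
      exact this.le
    have hu : 3 * δ * L ≤ lam * L * α := by
      have := mul_le_mul_of_nonneg_right h3 hL0.le
      linarith
    have hu0 : 0 ≤ lam * L * α := by positivity
    have h4 := ht (lam * L * α) (by
      rw [abs_of_nonneg hu0]
      have : 0 ≤ δ * L := by positivity
      linarith)
    rw [abs_of_nonneg hu0] at h4
    have h5 := pow_le_pow_left₀ (abs_nonneg _) h4 2
    rw [sq_abs, mul_pow, ← Real.exp_nat_mul] at h5
    have h6 : Real.exp (((2 : ℕ) : ℝ) * (-(lam * L * α - 2 * δ * L) ^ 2 / 2)) ≤ 1 / (δ ^ 2 * L) := by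
      have h7 : ((2 : ℕ) : ℝ) * (-(lam * L * α - 2 * δ * L) ^ 2 / 2) ≤ -(δ ^ 2 * L) := by
        push_cast
        have h8 : δ * L ≤ lam * L * α - 2 * δ * L := by linarith
        have h9 : (δ * L) ^ 2 ≤ (lam * L * α - 2 * δ * L) ^ 2 :=
          pow_le_pow_left₀ (by positivity) h8 2
        have h10 : δ ^ 2 * L ≤ (δ * L) ^ 2 := by
          rw [mul_pow]
          refine mul_le_mul_of_nonneg_left ?_ (by positivity)
          exact le_self_pow₀ hL two_ne_zero
        linarith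
      refine (Real.exp_le_exp.2 h7).trans ?_
      rw [Real.exp_neg, one_div]
      refine inv_anti₀ (by positivity) ?_
      have := Real.add_one_le_exp (δ ^ 2 * L)
      linarith
    have hα2 : E * α ≤ E := mul_le_of_le_one_right hE (by assumption)
    calc |ρ| * q (lam * L * α) ^ 2 ≤ E * (D ^ 2 * (1 / (δ ^ 2 * L))) := by
          refine mul_le_mul (h2.trans hα2) (h5.trans (mul_le_mul_of_nonneg_left h6 (by positivity)))
            (sq_nonneg _) hE
      _ = E * D ^ 2 / (δ ^ 2 * L) := by ring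
      _ ≤ _ := by
          have : 0 ≤ E * (3 * δ / lam) * q (lam * L * α) ^ 2 := by positivity
          linarith

/-- the diagonal part -/
theorem ql_part {R q : ℝ → ℝ} {E lam δ D L J : ℝ} (hR : ∀ x y : ℝ, |R x - R y| ≤ E * |x - y|)
    (hlam : 0 < lam) (hδ : 0 < δ) (hδl : 3 * δ ≤ lam) (hL : 1 ≤ L) (hD : 1 ≤ D)
    (hc : Continuous q) (he : ∀ x, q (-x) = q x)
    (ht : ∀ x : ℝ, 2 * δ * L ≤ |x| → |q x| ≤ D * Real.exp (-(|x| - 2 * δ * L) ^ 2 / 2))
    (hi : Integrable (fun x => q x ^ 2)) (hI : |(∫ x : ℝ, q x ^ 2) - L * J| ≤ D) :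
    (∫ α in (0 : ℝ)..1, q (lam * L * α) ^ 2) ≤ (J / lam + D / (lam * L)) / 2 ∧
    |2 * (∫ α in (0 : ℝ)..1, R α * q (lam * L * α) ^ 2) - R 0 * J / lam| ≤
      E * (3 * δ / lam) * (J / lam + D / (lam * L)) + 2 * E * D ^ 2 / (δ ^ 2 * L) +
        |R 0| * (D + 4 * D ^ 2) / (lam * L) := by
  have hL0 : 0 < L := by linarith
  have hc0 : 0 < lam * L := by positivity
  have hE : 0 ≤ E := by
    have := hR 0 1
    have h2 := abs_nonneg (R 0 - R 1)
    simp only [zero_sub, abs_neg, abs_one, mul_one] at this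
    linarith
  have hRc : Continuous R := by
    have : LipschitzWith (Real.toNNReal E) R := by
      refine LipschitzWith.of_dist_le_mul fun x y => ?_
      rw [Real.dist_eq, Real.dist_eq]
      exact (hR x y).trans (mul_le_mul_of_nonneg_right (Real.le_coe_toNNReal E) (abs_nonneg _))
    exact this.continuous
  set S1 : ℝ := ∫ α in (0 : ℝ)..1, q (lam * L * α) ^ 2 with hS1
  have s1 : lam * L * S1 = ∫ x in (0 : ℝ)..(lam * L), q x ^ 2 := by
    rw [hS1, intervalIntegral.integral_comp_mul_left (fun x => q x ^ 2) hc0.ne', mul_zero, mul_one,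
      smul_eq_mul, mul_inv_cancel_left₀ hc0.ne']
  have s2 : ∫ x : ℝ, q x ^ 2 = 2 * ∫ x in Set.Ioi (0 : ℝ), q x ^ 2 := by
    rw [← integral_comp_abs (f := fun x => q x ^ 2)]
    congr 1
    funext x
    rcases abs_choice x with h | h
    · rw [h]
    · rw [h, he]
  have s3 : (∫ x in (0 : ℝ)..(lam * L), q x ^ 2) + ∫ x in Set.Ioi (lam * L), q x ^ 2 =
      ∫ x in Set.Ioi (0 : ℝ), q x ^ 2 :=
    intervalIntegral.integral_interval_add_Ioi hi.integrableOn hi.integrableOn
  have hgi : Integrable (fun x : ℝ => D ^ 2 * Real.exp (-1 * (x - 2 * δ * L) ^ 2)) :=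
    ((integrable_exp_neg_mul_sq one_pos).comp_sub_right (2 * δ * L)).const_mul _
  have s4 : ∫ x in Set.Ioi (lam * L), q x ^ 2 ≤ 2 * D ^ 2 := by
    have h1 : ∫ x in Set.Ioi (lam * L), q x ^ 2 ≤
        ∫ x in Set.Ioi (lam * L), D ^ 2 * Real.exp (-1 * (x - 2 * δ * L) ^ 2) := by
      refine setIntegral_mono_on hi.integrableOn hgi.integrableOn measurableSet_Ioi fun x hx => ?_
      have hx1 : 2 * δ * L ≤ x := by
        have := Set.mem_Ioi.1 hx
        nlinarith
      have hx0 : 0 ≤ x := le_trans (by positivity) hx1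
      have h2 := ht x (by rwa [abs_of_nonneg hx0])
      rw [abs_of_nonneg hx0] at h2
      have h3 := pow_le_pow_left₀ (abs_nonneg _) h2 2
      rw [sq_abs, mul_pow, ← Real.exp_nat_mul] at h3
      refine h3.trans (le_of_eq ?_)
      congr 2
      push_cast
      ring
    have h2 : ∫ x in Set.Ioi (lam * L), D ^ 2 * Real.exp (-1 * (x - 2 * δ * L) ^ 2) ≤
        ∫ x : ℝ, D ^ 2 * Real.exp (-1 * (x - 2 * δ * L) ^ 2) :=
      setIntegral_le_integral hgi (Eventually.of_forall fun x => by positivity)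
    have h3 : ∫ x : ℝ, D ^ 2 * Real.exp (-1 * (x - 2 * δ * L) ^ 2) = D ^ 2 * Real.sqrt Real.pi := by
      rw [integral_const_mul, integral_sub_right_eq_self (fun x => Real.exp (-1 * x ^ 2)),
        integral_gaussian, div_one]
    have h4 : Real.sqrt Real.pi ≤ 2 := by
      rw [Real.sqrt_le_left (by norm_num)]
      linarith [Real.pi_lt_four]
    have h5 : D ^ 2 * Real.sqrt Real.pi ≤ D ^ 2 * 2 := mul_le_mul_of_nonneg_left h4 (by positivity)
    linarith
  have s5 : 0 ≤ ∫ x in Set.Ioi (lam * L), q x ^ 2 := integral_nonneg fun x => by positivity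
  obtain ⟨i1, i2⟩ := abs_le.1 hI
  have s6 : S1 ≤ (J / lam + D / (lam * L)) / 2 := by
    have e : (J / lam + D / (lam * L)) / 2 = (L * J + D) / (2 * (lam * L)) := by
      field_simp
    rw [e, le_div_iff₀ (by positivity)]
    nlinarith
  have s7 : |2 * S1 - J / lam| ≤ (D + 4 * D ^ 2) / (lam * L) := by
    have e : 2 * S1 - J / lam = (2 * (lam * L * S1) - L * J) / (lam * L) := by
      field_simp
    rw [e, abs_div, abs_of_pos hc0]
    refine div_le_div_of_nonneg_right ?_ hc0.le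
    rw [abs_le]
    constructor <;> nlinarith [sq_nonneg D]
  refine ⟨s6, ?_⟩
  have hqc : Continuous fun α : ℝ => q (lam * L * α) ^ 2 := by fun_prop
  have d1 : (∫ α in (0 : ℝ)..1, R α * q (lam * L * α) ^ 2) =
      (∫ α in (0 : ℝ)..1, (R α - R 0) * q (lam * L * α) ^ 2) + R 0 * S1 := by
    rw [hS1, ← intervalIntegral.integral_const_mul, ← intervalIntegral.integral_add]
    · congr 1
      funext α
      ring
    · exact (Continuous.mul (by fun_prop) hqc).intervalIntegrable _ _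
    · exact (Continuous.mul (by fun_prop) hqc).intervalIntegrable _ _
  have d2 : |∫ α in (0 : ℝ)..1, (R α - R 0) * q (lam * L * α) ^ 2| ≤
      E * (3 * δ / lam) * S1 + E * D ^ 2 / (δ ^ 2 * L) := by
    have h1 : ∫ α in (0 : ℝ)..1, (E * (3 * δ / lam) * q (lam * L * α) ^ 2 + E * D ^ 2 / (δ ^ 2 * L)) =
        E * (3 * δ / lam) * S1 + E * D ^ 2 / (δ ^ 2 * L) := by
      rw [intervalIntegral.integral_add ((hqc.const_mul _).intervalIntegrable _ _) (by simp),
        intervalIntegral.integral_const_mul]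
      simp [hS1]
    rw [← h1, ← Real.norm_eq_abs]
    refine intervalIntegral.norm_integral_le_of_norm_le zero_le_one ?_
      (Continuous.intervalIntegrable (by fun_prop) _ _)
    refine Eventually.of_forall fun α hα => ?_
    rw [Real.norm_eq_abs, abs_mul, abs_of_nonneg (sq_nonneg (q _))]
    have hα0 : 0 ≤ α := hα.1.le
    have h2 : |R α - R 0| ≤ E * α := by
      have := hR α 0
      rwa [sub_zero, abs_of_nonneg hα0] at this
    exact ql_pt hE hlam hδ hL ht hα0 hα.2 h2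
  rw [d1]
  have e1 : 2 * ((∫ α in (0 : ℝ)..1, (R α - R 0) * q (lam * L * α) ^ 2) + R 0 * S1) - R 0 * J / lam =
      2 * (∫ α in (0 : ℝ)..1, (R α - R 0) * q (lam * L * α) ^ 2) + R 0 * (2 * S1 - J / lam) := by
    ring
  rw [e1]
  refine (abs_add_le _ _).trans ?_
  rw [abs_mul, abs_mul, abs_of_pos (two_pos : (0 : ℝ) < 2)]
  have h3 := mul_le_mul_of_nonneg_left s7 (abs_nonneg (R 0))
  have h4 : E * (3 * δ / lam) * S1 ≤ E * (3 * δ / lam) * ((J / lam + D / (lam * L)) / 2) :=
    mul_le_mul_of_nonneg_left s6 (by positivity)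
  have e2 : |R 0| * (D + 4 * D ^ 2) / (lam * L) = |R 0| * ((D + 4 * D ^ 2) / (lam * L)) := by ring
  have e3 : 2 * E * D ^ 2 / (δ ^ 2 * L) = 2 * (E * D ^ 2 / (δ ^ 2 * L)) := by ring
  rw [e2, e3]
  linarith

/-- the coefficients -/
theorem coef_ineq {M lam C₀ δ θ E D J L ε ε' S1 r : ℝ} (hM : 0 ≤ M) (hlam : 0 < lam) (hC₀ : 1 ≤ C₀) (hδ : 0 < δ)
    (hδ1 : δ ≤ 1) (hE : 0 ≤ E) (hD : 1 ≤ D) (hJ : 0 ≤ J) (hL : 1 ≤ L) (hε : 0 < ε)
    (hε' : ε' = ε / (4 * (M + 1))) (hS1 : S1 ≤ (J / lam + D / (lam * L)) / 2)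
    (hlarge : (M * D / lam + 3 * E * D / lam ^ 2 + 2 * E * D ^ 2 / δ ^ 2 + r * (D + 4 * D ^ 2) / lam) / L ≤ ε / 2) :
    2 * (M * (Real.sqrt δ * S1 + 3 * δ / lam * (C₀ / Real.sqrt δ * (δ + Real.sqrt θ) * J) +
      C₀ * (δ + Real.sqrt θ) * J + ε')) + (E * (3 * δ / lam) * (J / lam + D / (lam * L)) +
      2 * E * D ^ 2 / (δ ^ 2 * L) + r * (D + 4 * D ^ 2) / (lam * L)) ≤
    (1 + (M / lam + 6 * M * C₀ / lam + 2 * M * C₀ + 3 * E / lam ^ 2)) * (Real.sqrt δ + Real.sqrt θ) * J + ε := by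
  have hη := Real.sqrt_pos.2 hδ
  have hη1 : Real.sqrt δ ≤ 1 := Real.sqrt_le_one.2 hδ1
  have hηδ : δ = Real.sqrt δ * Real.sqrt δ := (Real.mul_self_sqrt hδ.le).symm
  have hθ := Real.sqrt_nonneg θ
  set η := Real.sqrt δ with hηd
  set t := Real.sqrt θ with htd
  have hL0 : 0 < L := by linarith
  have hδη : δ ≤ η := by rw [hηδ]; nlinarith
  have hS : δ + t ≤ η + t := by linarith
  have a1 : 2 * (M * (η * S1)) ≤ M * (η + t) * J / lam + M * D / lam / L := by
    have h1 : 2 * (M * (η * S1)) ≤ M * η * (J / lam + D / (lam * L)) := by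
      have := mul_le_mul_of_nonneg_left hS1 (mul_nonneg hM hη.le)
      linarith
    have h2 : M * η * (J / lam) ≤ M * (η + t) * (J / lam) := by
      refine mul_le_mul_of_nonneg_right ?_ (by positivity)
      exact mul_le_mul_of_nonneg_left (by linarith) hM
    have h3 : M * η * (D / (lam * L)) ≤ M * 1 * (D / (lam * L)) := by
      refine mul_le_mul_of_nonneg_right ?_ (by positivity)
      exact mul_le_mul_of_nonneg_left hη1 hM
    have e1 : M * D / lam / L = M * 1 * (D / (lam * L)) := by field_simp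
    have e2 : M * (η + t) * J / lam = M * (η + t) * (J / lam) := by ring
    rw [e1, e2]
    linarith
  have a2 : 2 * (M * (3 * δ / lam * (C₀ / η * (δ + t) * J))) ≤ 6 * M * C₀ / lam * (η + t) * J := by
    have e1 : 2 * (M * (3 * δ / lam * (C₀ / η * (δ + t) * J))) =
        (δ / η) * (6 * M * C₀ / lam * (δ + t) * J) := by
      field_simp
      ring
    have e2 : δ / η = η := by
      rw [div_eq_iff hη.ne']
      exact hηδ
    rw [e1, e2]
    have h1 : 6 * M * C₀ / lam * (δ + t) * J ≤ 6 * M * C₀ / lam * (η + t) * J := by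
      refine mul_le_mul_of_nonneg_right ?_ hJ
      exact mul_le_mul_of_nonneg_left hS (by positivity)
    have h2 : 0 ≤ 6 * M * C₀ / lam * (δ + t) * J := by positivity
    exact (mul_le_of_le_one_left h2 hη1).trans h1
  have a3 : 2 * (M * (C₀ * (δ + t) * J)) ≤ 2 * M * C₀ * (η + t) * J := by
    have h1 : 2 * M * C₀ * (δ + t) * J ≤ 2 * M * C₀ * (η + t) * J := by
      refine mul_le_mul_of_nonneg_right ?_ hJ
      exact mul_le_mul_of_nonneg_left hS (by positivity)
    linarith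
  have a4 : 2 * (M * ε') ≤ ε / 2 := by
    rw [hε', ← mul_div_assoc, ← mul_div_assoc, div_le_iff₀ (by positivity)]
    nlinarith
  have a5 : E * (3 * δ / lam) * (J / lam + D / (lam * L)) ≤
      3 * E / lam ^ 2 * (η + t) * J + 3 * E * D / lam ^ 2 / L := by
    have e1 : E * (3 * δ / lam) * (J / lam + D / (lam * L)) =
        3 * E / lam ^ 2 * δ * J + δ * (3 * E * D / lam ^ 2 / L) := by
      field_simp
    rw [e1]
    have h1 : 3 * E / lam ^ 2 * δ * J ≤ 3 * E / lam ^ 2 * (η + t) * J := by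
      refine mul_le_mul_of_nonneg_right ?_ hJ
      exact mul_le_mul_of_nonneg_left (by linarith) (by positivity)
    have h2 : δ * (3 * E * D / lam ^ 2 / L) ≤ 3 * E * D / lam ^ 2 / L :=
      mul_le_of_le_one_left (by positivity) hδ1
    linarith
  have a6 : 0 ≤ (η + t) * J := by positivity
  have e3 : (M * D / lam + 3 * E * D / lam ^ 2 + 2 * E * D ^ 2 / δ ^ 2 + r * (D + 4 * D ^ 2) / lam) / L =
      M * D / lam / L + 3 * E * D / lam ^ 2 / L + 2 * E * D ^ 2 / (δ ^ 2 * L) +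
        r * (D + 4 * D ^ 2) / (lam * L) := by
    rw [add_div, add_div, add_div, div_div (2 * E * D ^ 2), div_div (r * (D + 4 * D ^ 2))]
  rw [e3] at hlarge
  have e4 : (1 + (M / lam + 6 * M * C₀ / lam + 2 * M * C₀ + 3 * E / lam ^ 2)) * (η + t) * J =
      (η + t) * J + M * (η + t) * J / lam + 6 * M * C₀ / lam * (η + t) * J +
        2 * M * C₀ * (η + t) * J + 3 * E / lam ^ 2 * (η + t) * J := by
    ring
  rw [e4]
  linarith

theorem t_PAIR : J_PAIR := by
  intro hQH hQLF hZU R E lam hR hlam hlam1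
  obtain ⟨C₀, hC₀, hZU⟩ := hZU
  have hE : 0 ≤ E := by
    have := hR 0 1
    have h2 := abs_nonneg (R 0 - R 1)
    simp only [zero_sub, abs_neg, abs_one, mul_one] at this
    linarith
  have hRc : Continuous R := by
    have : LipschitzWith (Real.toNNReal E) R := by
      refine LipschitzWith.of_dist_le_mul fun x y => ?_
      rw [Real.dist_eq, Real.dist_eq]
      exact (hR x y).trans (mul_le_mul_of_nonneg_right (Real.le_coe_toNNReal E) (abs_nonneg _))
    exact this.continuous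
  set M : ℝ := |R 0| + E with hMdef
  have hM : 0 ≤ M := by positivity
  have hRM : ∀ α : ℝ, 0 ≤ α → α ≤ 1 → |R α| ≤ M := by
    intro α h0 h1
    have h2 := hR α 0
    rw [sub_zero, abs_of_nonneg h0] at h2
    have h3 : |R α| ≤ |R α - R 0| + |R 0| := by
      have := abs_add_le (R α - R 0) (R 0)
      rwa [sub_add_cancel] at this
    have h4 : E * α ≤ E := mul_le_of_le_one_right hE h1
    rw [hMdef]
    linarith
  refine ⟨1 + (M / lam + 6 * M * C₀ / lam + 2 * M * C₀ + 3 * E / lam ^ 2), ?_, ?_⟩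
  · have : 0 ≤ M / lam + 6 * M * C₀ / lam + 2 * M * C₀ + 3 * E / lam ^ 2 := by positivity
    linarith
  intro δ H C K w θ ε hδ hδ1 hδl hs hH hC hK hw hθ hθ1 hε
  obtain ⟨q1, q2, q3, -, -, -⟩ := hQH δ H C K w hδ (by linarith) hH hC hK hw
  obtain ⟨D, hD, hql⟩ := hQLF δ w hδ (by linarith) q1 q2 q3
  have hJ : 0 ≤ I2 w := integral_nonneg fun v => by positivity
  have hcp : Cp δ w := by
    obtain ⟨D', hD'⟩ := hw.lip
    have : LipschitzWith (Real.toNNReal D') w := by
      refine LipschitzWith.of_dist_le_mul fun x y => ?_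
      rw [Real.dist_eq, Real.dist_eq]
      exact (hD' x y).trans (mul_le_mul_of_nonneg_right (Real.le_coe_toNNReal D') (abs_nonneg _))
    exact ⟨this.continuous, hw.supp⟩
  have hη := Real.sqrt_pos.2 hδ
  have hη1 : Real.sqrt δ ≤ 1 := Real.sqrt_le_one.2 (by linarith)
  have hε' : 0 < ε / (4 * (M + 1)) := by positivity
  have ev1 := hZU δ H C K w θ (ε / (4 * (M + 1))) (Real.sqrt δ) hδ hδ1 hH hC hK hw hθ hθ1 hε' hη hη1
  have ev2 : ∀ᶠ T : ℝ in atTop, 1 ≤ Real.log T := Real.tendsto_log_atTop.eventually_ge_atTop 1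
  have ev3 : ∀ᶠ T : ℝ in atTop, (M * D / lam + 3 * E * D / lam ^ 2 + 2 * E * D ^ 2 / δ ^ 2 +
      |R 0| * (D + 4 * D ^ 2) / lam) / Real.log T ≤ ε / 2 := by
    have h1 := (tendsto_const_nhds (x := M * D / lam + 3 * E * D / lam ^ 2 + 2 * E * D ^ 2 / δ ^ 2 +
      |R 0| * (D + 4 * D ^ 2) / lam)).div_atTop Real.tendsto_log_atTop
    exact h1.eventually (ge_mem_nhds (by positivity))
  filter_upwards [ev1, ev2, ev3, eventually_ge_atTop 0] with T g1 g2 g3 g4 N hN b
  set L : ℝ := Real.log T with hLdef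
  have hL0 : 0 < L := by linarith
  obtain ⟨c1, c2, -, -, c5, c6, c7, -⟩ := hql L g2
  have hN2 : 0 ≤ N2 N b := Finset.sum_nonneg fun n _ => by positivity
  have hP : 0 ≤ T * N2 N b := mul_nonneg g4 hN2
  obtain ⟨l1, l2⟩ := ql_part hR hlam hδ hδl g2 hD c1 c2 c5 c6 c7
  set S1 : ℝ := ∫ α in (0 : ℝ)..1, QL w L (lam * L * α) ^ 2 with hS1
  set W : ℝ → ℝ := fun α => ∫ t in (T + 2 * L)..(2 * T - 2 * L), ‖Zt w T (lam * L * α) t‖ ^ 2 * ‖dp N b t‖ ^ 2
    with hW
  have hWc : Continuous W := W_cont hcp T (lam * L) _ _ N b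
  set V : ℝ → ℝ := fun α => (QL w L (lam * L * α) ^ 2 + lam * α * I2 w) * T * N2 N b with hV
  have hVc : Continuous V := by
    rw [hV]
    fun_prop
  have hqc : Continuous fun α : ℝ => QL w L (lam * L * α) ^ 2 := by fun_prop
  set a₀ : ℝ := 3 * δ / lam with ha₀
  have ha0 : 0 ≤ a₀ := by positivity
  have ha1 : a₀ ≤ 1 := by
    rw [ha₀, div_le_one hlam]
    exact hδl
  have hmain : ∀ α : ℝ, 0 ≤ α → α ≤ 1 → |W α - V α| ≤
      ((if 3 * δ * L ≤ lam * L * α then C₀ * (δ + Real.sqrt θ) * I2 w else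
        Real.sqrt δ * QL w L (lam * L * α) ^ 2 + C₀ / Real.sqrt δ * (δ + Real.sqrt θ) * I2 w) +
        ε / (4 * (M + 1))) * T * N2 N b := by
    intro α h0 h1
    have h2 := g1 N hN b (lam * L * α) (by positivity) (by
      have h3 : lam * L * α ≤ lam * L := mul_le_of_le_one_right (by positivity) h1
      have h4 : lam * L ≤ (1 - 4 * δ - 2 * θ) * L := mul_le_mul_of_nonneg_right (by linarith) hL0.le
      linarith)
    have e : lam * L * α / L = lam * α := by field_simp
    rw [e] at h2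
    exact h2
  have hsmall : ∀ α : ℝ, 0 ≤ α → α ≤ 1 → |R α * (W α - V α)| ≤
      M * (Real.sqrt δ * QL w L (lam * L * α) ^ 2 + (C₀ / Real.sqrt δ * (δ + Real.sqrt θ) * I2 w +
        ε / (4 * (M + 1)))) * (T * N2 N b) := by
    intro α h0 h1
    rw [abs_mul, mul_assoc M]
    refine mul_le_mul (hRM α h0 h1) ((hmain α h0 h1).trans ?_) (abs_nonneg _) hM
    rw [mul_assoc _ T]
    refine mul_le_mul_of_nonneg_right ?_ hP
    rw [← add_assoc]
    refine add_le_add_left ?_ _
    split_ifs with hif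
    · have h2 : C₀ * (δ + Real.sqrt θ) * I2 w ≤ C₀ / Real.sqrt δ * (δ + Real.sqrt θ) * I2 w := by
        refine mul_le_mul_of_nonneg_right ?_ hJ
        refine mul_le_mul_of_nonneg_right ?_ (by positivity)
        rw [le_div_iff₀ hη]
        exact mul_le_of_le_one_right (by linarith) hη1
      have h3 : 0 ≤ Real.sqrt δ * QL w L (lam * L * α) ^ 2 := by positivity
      linarith
    · exact le_refl _
  have hbig : ∀ α : ℝ, a₀ ≤ α → α ≤ 1 → |R α * (W α - V α)| ≤
      M * (C₀ * (δ + Real.sqrt θ) * I2 w + ε / (4 * (M + 1))) * (T * N2 N b) := by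
    intro α h0 h1
    have h00 := ha0.trans h0
    rw [abs_mul, mul_assoc M]
    refine mul_le_mul (hRM α h00 h1) ((hmain α h00 h1).trans ?_) (abs_nonneg _) hM
    have hif : 3 * δ * L ≤ lam * L * α := by
      have h2 : 3 * δ ≤ α * lam := by
        rw [ha₀, div_le_iff₀ hlam] at h0
        exact h0
      have := mul_le_mul_of_nonneg_right h2 hL0.le
      linarith
    rw [if_pos hif, mul_assoc _ T]
  have hfc : Continuous fun α => R α * (W α - V α) := hRc.mul (hWc.sub hVc)
  have hRVc : Continuous fun α => R α * V α := hRc.mul hVc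
  have hRqc : Continuous fun α => R α * QL w L (lam * L * α) ^ 2 := hRc.mul hqc
  have hb1 : |∫ α in (0 : ℝ)..a₀, R α * (W α - V α)| ≤
      M * (Real.sqrt δ * S1 + a₀ * (C₀ / Real.sqrt δ * (δ + Real.sqrt θ) * I2 w + ε / (4 * (M + 1)))) *
        (T * N2 N b) := by
    have h1 : |∫ α in (0 : ℝ)..a₀, R α * (W α - V α)| ≤ ∫ α in (0 : ℝ)..a₀,
        M * (Real.sqrt δ * QL w L (lam * L * α) ^ 2 + (C₀ / Real.sqrt δ * (δ + Real.sqrt θ) * I2 w +
        ε / (4 * (M + 1)))) * (T * N2 N b) := by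
      rw [← Real.norm_eq_abs]
      refine intervalIntegral.norm_integral_le_of_norm_le ha0 ?_
        (Continuous.intervalIntegrable (by fun_prop) _ _)
      exact Eventually.of_forall fun α hα => hsmall α hα.1.le (hα.2.trans ha1)
    refine h1.trans ?_
    rw [intervalIntegral.integral_mul_const, intervalIntegral.integral_const_mul,
      intervalIntegral.integral_add ((hqc.const_mul _).intervalIntegrable _ _) (by simp),
      intervalIntegral.integral_const_mul, intervalIntegral.integral_const, smul_eq_mul, sub_zero]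
    refine mul_le_mul_of_nonneg_right ?_ hP
    refine mul_le_mul_of_nonneg_left ?_ hM
    refine add_le_add_left (mul_le_mul_of_nonneg_left ?_ hη.le) _
    rw [hS1]
    refine intervalIntegral.integral_mono_interval le_rfl ha0 ha1 ?_ (hqc.intervalIntegrable _ _)
    exact Eventually.of_forall fun α => by positivity
  have hb2 : |∫ α in a₀..1, R α * (W α - V α)| ≤
      M * ((1 - a₀) * (C₀ * (δ + Real.sqrt θ) * I2 w + ε / (4 * (M + 1)))) * (T * N2 N b) := by
    have h1 : |∫ α in a₀..1, R α * (W α - V α)| ≤ ∫ α in a₀..1,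
        M * (C₀ * (δ + Real.sqrt θ) * I2 w + ε / (4 * (M + 1))) * (T * N2 N b) := by
      rw [← Real.norm_eq_abs]
      refine intervalIntegral.norm_integral_le_of_norm_le ha1 ?_
        (Continuous.intervalIntegrable (by fun_prop) _ _)
      exact Eventually.of_forall fun α hα => hbig α hα.1.le hα.2
    refine h1.trans (le_of_eq ?_)
    rw [intervalIntegral.integral_const, smul_eq_mul]
    ring
  have hsum : (∫ α in (0 : ℝ)..1, R α * W α) =
      (∫ α in (0 : ℝ)..a₀, R α * (W α - V α)) + (∫ α in a₀..1, R α * (W α - V α)) +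
      ∫ α in (0 : ℝ)..1, R α * V α := by
    rw [intervalIntegral.integral_add_adjacent_intervals (hfc.intervalIntegrable _ _)
      (hfc.intervalIntegrable _ _), ← intervalIntegral.integral_add (hfc.intervalIntegrable _ _)
      (hRVc.intervalIntegrable _ _)]
    congr 1
    funext α
    ring
  have hRV : (∫ α in (0 : ℝ)..1, R α * V α) =
      ((∫ α in (0 : ℝ)..1, R α * QL w L (lam * L * α) ^ 2) + lam * (∫ α in (0 : ℝ)..1, α * R α) * I2 w) *
        (T * N2 N b) := by
    have e : (fun α => R α * V α) = fun α => (R α * QL w L (lam * L * α) ^ 2 +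
        lam * I2 w * (α * R α)) * (T * N2 N b) := by
      funext α
      rw [hV]
      ring
    rw [e, intervalIntegral.integral_mul_const, intervalIntegral.integral_add
      (hRqc.intervalIntegrable _ _) (Continuous.intervalIntegrable (by fun_prop) _ _),
      intervalIntegral.integral_const_mul]
    ring
  have hgoal : 2 * (∫ α in (0 : ℝ)..1, R α * W α) -
      (R 0 / lam + 2 * lam * ∫ α in (0 : ℝ)..1, α * R α) * I2 w * T * N2 N b =
      2 * ((∫ α in (0 : ℝ)..a₀, R α * (W α - V α)) + (∫ α in a₀..1, R α * (W α - V α))) +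
      (2 * (∫ α in (0 : ℝ)..1, R α * QL w L (lam * L * α) ^ 2) - R 0 * I2 w / lam) * (T * N2 N b) := by
    rw [hsum, hRV]
    ring
  rw [hgoal]
  refine (abs_add_le _ _).trans ?_
  rw [abs_mul, abs_mul _ (T * N2 N b), abs_of_pos (two_pos : (0 : ℝ) < 2), abs_of_nonneg hP]
  have hab := abs_add_le (∫ α in (0 : ℝ)..a₀, R α * (W α - V α)) (∫ α in a₀..1, R α * (W α - V α))
  have hl2 := mul_le_mul_of_nonneg_right l2 hP
  have hco := coef_ineq (θ := θ) hM hlam hC₀ hδ (by linarith : δ ≤ 1) hE hD hJ g2 hε (r := |R 0|) rfl l1 g3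
  have hco2 := mul_le_mul_of_nonneg_right hco hP
  have hx : M * (Real.sqrt δ * S1 + a₀ * (C₀ / Real.sqrt δ * (δ + Real.sqrt θ) * I2 w + ε / (4 * (M + 1)))) +
      M * ((1 - a₀) * (C₀ * (δ + Real.sqrt θ) * I2 w + ε / (4 * (M + 1)))) ≤
      M * (Real.sqrt δ * S1 + a₀ * (C₀ / Real.sqrt δ * (δ + Real.sqrt θ) * I2 w) +
      C₀ * (δ + Real.sqrt θ) * I2 w + ε / (4 * (M + 1))) := by
    rw [← mul_add]
    refine mul_le_mul_of_nonneg_left ?_ hM
    have : 0 ≤ a₀ * (C₀ * (δ + Real.sqrt θ) * I2 w) := by positivity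
    linarith
  have hx2 := mul_le_mul_of_nonneg_right hx hP
  have e5 : (1 + (M / lam + 6 * M * C₀ / lam + 2 * M * C₀ + 3 * E / lam ^ 2)) * (Real.sqrt δ + Real.sqrt θ) *
      I2 w = (1 + (M / lam + 6 * M * C₀ / lam + 2 * M * C₀ + 3 * E / lam ^ 2)) * (Real.sqrt δ + Real.sqrt θ) *
      I2 w := rfl
  rw [mul_assoc _ T]
  linarith

end

end Pool.Agent.Q176.UM
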