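import Pool.Agent.Q97.UM.Stm14
import Pool.Agent.Q176.UM.PAIR

/-!
# Project UM8 (helper97): rules for mean values, one block
-/

set_option autoImplicit false

namespace Pool.Agent.Q176.UM

open Pool.Agent.Q97.UM MeasureTheory Complex Filter Topology

noncomputable section

/-! ### mean values -/

theorem MB.mono {F G : ℝ → ℝ} {C : ℝ} (hF : Continuous F) (hG : Continuous G) (h : ∀ t, F t ≤ G t)
    (hM : MB G C) : MB F C := by
  unfold MB at hM ⊢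
  filter_upwards [hM, eventually_ge_atTop (0 : ℝ)] with V hV hV0
  exact (intervalIntegral.integral_mono (by linarith) (hF.intervalIntegrable _ _)
    (hG.intervalIntegrable _ _) h).trans hV

theorem MB.le {F : ℝ → ℝ} {C C' : ℝ} (h : C ≤ C') (hM : MB F C) : MB F C' := by
  unfold MB at hM ⊢
  filter_upwards [hM, eventually_ge_atTop (0 : ℝ)] with V hV hV0
  exact hV.trans (mul_le_mul_of_nonneg_right h hV0)

theorem MB.add {F G : ℝ → ℝ} {C C' : ℝ} (hF : Continuous F) (hG : Continuous G) (h : MB F C)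
    (h' : MB G C') : MB (fun t => F t + G t) (C + C') := by
  unfold MB at h h' ⊢
  filter_upwards [h, h'] with V h1 h2
  rw [intervalIntegral.integral_add (hF.intervalIntegrable _ _) (hG.intervalIntegrable _ _)]
  linarith

theorem MB.cmul {F : ℝ → ℝ} {C c : ℝ} (hc : 0 ≤ c) (h : MB F C) : MB (fun t => c * F t) (c * C) := by
  unfold MB at h ⊢
  filter_upwards [h] with V h1
  rw [intervalIntegral.integral_const_mul, mul_assoc]
  exact mul_le_mul_of_nonneg_left h1 hc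

theorem MB.zero : MB (fun _ => (0 : ℝ)) 0 := by
  unfold MB
  exact Eventually.of_forall fun V => by simp

theorem MB.sum {ι : Type} (s : Finset ι) {F : ι → ℝ → ℝ} {C : ι → ℝ} (hF : ∀ i ∈ s, Continuous (F i))
    (h : ∀ i ∈ s, MB (F i) (C i)) : MB (fun t => ∑ i ∈ s, F i t) (∑ i ∈ s, C i) := by
  classical
  induction s using Finset.induction_on with
  | empty =>
    simp only [Finset.sum_empty]
    exact MB.zero
  | insert a s ha ih =>
    simp only [Finset.sum_insert ha]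
    refine MB.add (hF a (Finset.mem_insert_self _ _)) ?_ (h a (Finset.mem_insert_self _ _))
      (ih (fun i hi => hF i (Finset.mem_insert_of_mem hi))
        fun i hi => h i (Finset.mem_insert_of_mem hi))
    exact continuous_finsetSum _ fun i hi => hF i (Finset.mem_insert_of_mem hi)

theorem MB.nonneg {F : ℝ → ℝ} {C : ℝ} (hF : ∀ t, 0 ≤ F t) (h : MB F C) : 0 ≤ C := by
  unfold MB at h
  obtain ⟨V, h1, h2⟩ := (h.and (eventually_ge_atTop (1 : ℝ))).exists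
  have h3 : 0 ≤ ∫ t in V..(2 * V), F t :=
    intervalIntegral.integral_nonneg (by linarith) fun t _ => hF t
  by_contra hcon
  have h4 := mul_neg_of_neg_of_pos (not_le.1 hcon) (show 0 < V by linarith)
  linarith

theorem MB.congr {F G : ℝ → ℝ} {C : ℝ} (h : ∀ t, F t = G t) (hM : MB F C) : MB G C := by
  have : F = G := funext h
  rwa [← this]

theorem N2_nn (N : ℕ) (b : ℕ → ℂ) : 0 ≤ N2 N b := by
  unfold N2
  exact Finset.sum_nonneg fun n _ => by positivity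

/-- the mean value of a Dirichlet polynomial -/
theorem mvl_ev (hMVL : S_MVL) (M : ℕ) (c : ℕ → ℂ) : ∀ᶠ V : ℝ in atTop,
    V / 2 * N2 M c ≤ ∫ t in V..(2 * V), ‖dp M c t‖ ^ 2 ∧
      ∫ t in V..(2 * V), ‖dp M c t‖ ^ 2 ≤ 2 * V * N2 M c := by
  have h1 := (tendsto_rpow_atTop (show (0 : ℝ) < 1 / 4 by norm_num)).eventually_ge_atTop (M : ℝ)
  filter_upwards [h1, eventually_ge_atTop (16 : ℝ)] with V h1 h2
  exact hMVL V h2 M h1 c

theorem MB_dp (hMVL : S_MVL) (M : ℕ) (c : ℕ → ℂ) : MB (fun t => ‖dp M c t‖ ^ 2) (2 * N2 M c) := by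
  unfold MB
  filter_upwards [mvl_ev hMVL M c] with V h
  refine h.2.trans (le_of_eq ?_)
  ring

theorem N2_le (hMVL : S_MVL) {M : ℕ} {c : ℕ → ℂ} {C : ℝ} (h : MB (fun t => ‖dp M c t‖ ^ 2) C) :
    N2 M c ≤ 2 * C := by
  unfold MB at h
  obtain ⟨V, ⟨h1, h2⟩, h3⟩ := ((mvl_ev hMVL M c).and h).and (eventually_ge_atTop (1 : ℝ)) |>.exists
  have h4 : V / 2 * N2 M c ≤ C * V := h1.1.trans h2
  have h5 : V * (N2 M c - 2 * C) ≤ 0 := by linarith
  by_contra hcon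
  have h6 := mul_pos (show 0 < V by linarith) (show 0 < N2 M c - 2 * C by linarith)
  linarith

/-! ### continuity -/

theorem zf_cont (D : ℝ) (a a2 : ℕ → ℂ) (j : ℕ) : Continuous (zf D a a2 j) := by
  unfold zf
  exact dp_cont _ _

theorem TEx_cont (R : ℕ) : Continuous (TEx R) := by
  unfold TEx
  exact continuous_finsetSum _ fun r _ => (continuous_id.pow r).div_const _

theorem Ef_cont (D κ : ℝ) (a a2 : ℕ → ℂ) (j : ℕ) : Continuous (Ef D κ a a2 j) := by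
  unfold Ef
  exact continuous_finsetProd _ fun l _ => (TEx_cont _).comp (zf_cont _ _ _ _)

/-! ### sizes -/

theorem R9_ge (κ : ℝ) (j : ℕ) : κ * Real.exp (9 / 10 * (j : ℝ)) ≤ R9 κ j := Nat.le_ceil _

theorem s7_ge (j : ℕ) : Real.exp (7 / 10 * (j : ℝ)) ≤ s7 j := Nat.le_ceil _

theorem s7_le (j : ℕ) : (s7 j : ℝ) ≤ 2 * Real.exp (j : ℝ) := by
  have h1 := (Nat.ceil_lt_add_one (Real.exp_pos (7 / 10 * (j : ℝ))).le).le
  have h2 : Real.exp (7 / 10 * (j : ℝ)) ≤ Real.exp (j : ℝ) := by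
    rw [Real.exp_le_exp]
    have : (0 : ℝ) ≤ j := Nat.cast_nonneg j
    linarith
  have h3 : 1 ≤ Real.exp (j : ℝ) := Real.one_le_exp (Nat.cast_nonneg j)
  unfold s7
  linarith

/-- the size of the quotient in the moments of one block -/
theorem ratio_le {C₂ κ : ℝ} (hC₂ : 1 ≤ C₂) (hκ : 11600 * C₂ * Real.exp 1 ≤ κ) (hκ4 : 4 ≤ κ) {x : ℝ}
    (hx0 : 0 ≤ x) (hx : x ≤ 26 * κ + 5) {j r : ℕ} (hr : r ≤ 3 * s7 j) :
    400 * (C₂ * 1 ^ 2 * (Real.exp j * x + r + 1)) / (R9 κ j : ℝ) ^ 2 ≤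
      Real.exp (-(1 + 8 / 10 * (j : ℝ))) := by
  have he : 1 ≤ Real.exp (j : ℝ) := Real.one_le_exp (Nat.cast_nonneg j)
  have hr' : (r : ℝ) ≤ 6 * Real.exp (j : ℝ) := by
    have h1 : (r : ℝ) ≤ 3 * s7 j := by exact_mod_cast hr
    have h2 := s7_le j
    linarith
  have h1 : Real.exp j * x + r + 1 ≤ 29 * κ * Real.exp (j : ℝ) := by
    have h2 : Real.exp j * x ≤ Real.exp j * (26 * κ + 5) := by gcongr
    nlinarith
  have hR := R9_ge κ j
  have hR0 : 0 < κ * Real.exp (9 / 10 * (j : ℝ)) := by positivity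
  have hRpos : 0 < (R9 κ j : ℝ) := hR0.trans_le hR
  have hR2 : κ ^ 2 * Real.exp (18 / 10 * (j : ℝ)) ≤ (R9 κ j : ℝ) ^ 2 := by
    have h2 := pow_le_pow_left₀ hR0.le hR 2
    rw [mul_pow, ← Real.exp_nat_mul] at h2
    have e : ((2 : ℕ) : ℝ) * (9 / 10 * (j : ℝ)) = 18 / 10 * (j : ℝ) := by push_cast; ring
    rwa [e] at h2
  rw [div_le_iff₀ (by positivity)]
  have h3 : Real.exp (-(1 + 8 / 10 * (j : ℝ))) * (κ ^ 2 * Real.exp (18 / 10 * (j : ℝ))) ≤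
      Real.exp (-(1 + 8 / 10 * (j : ℝ))) * (R9 κ j : ℝ) ^ 2 := by gcongr
  refine le_trans ?_ h3
  have e1 : Real.exp (-(1 + 8 / 10 * (j : ℝ))) * (κ ^ 2 * Real.exp (18 / 10 * (j : ℝ))) =
      κ * (κ * Real.exp (-1)) * Real.exp (j : ℝ) := by
    have : Real.exp (-(1 + 8 / 10 * (j : ℝ))) * Real.exp (18 / 10 * (j : ℝ)) =
        Real.exp (-1) * Real.exp (j : ℝ) := by
      rw [← Real.exp_add, ← Real.exp_add]
      congr 1
      ring
    calc Real.exp (-(1 + 8 / 10 * (j : ℝ))) * (κ ^ 2 * Real.exp (18 / 10 * (j : ℝ))) =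
        κ ^ 2 * (Real.exp (-(1 + 8 / 10 * (j : ℝ))) * Real.exp (18 / 10 * (j : ℝ))) := by ring
      _ = κ ^ 2 * (Real.exp (-1) * Real.exp (j : ℝ)) := by rw [this]
      _ = _ := by ring
  rw [e1]
  have h4 : 11600 * C₂ ≤ κ * Real.exp (-1) := by
    have h5 : 11600 * C₂ * Real.exp 1 * Real.exp (-1) ≤ κ * Real.exp (-1) := by gcongr
    have h6 : 11600 * C₂ * Real.exp 1 * Real.exp (-1) = 11600 * C₂ := by
      rw [mul_assoc, ← Real.exp_add]
      simp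
    rwa [h6] at h5
  calc 400 * (C₂ * 1 ^ 2 * (Real.exp j * x + r + 1)) ≤
      400 * (C₂ * 1 ^ 2 * (29 * κ * Real.exp (j : ℝ))) := by gcongr
    _ = κ * (11600 * C₂) * Real.exp (j : ℝ) := by ring
    _ ≤ κ * (κ * Real.exp (-1)) * Real.exp (j : ℝ) := by gcongr

/-- relative moments of the normalised block -/
theorem blk {C₂ : ℝ} (hC₂ : 1 ≤ C₂)
    (hPMT : ∀ (A D : ℝ), 1 ≤ A → 1 ≤ D → ∀ a a2 : ℕ → ℂ, (∀ n, ‖a n‖ ≤ A) → (∀ n, ‖a2 n‖ ≤ A) →
      ∀ (M : ℕ) (c : ℕ → ℂ), 1 ≤ M → (∀ n, c n ≠ 0 → 1 ≤ n ∧ n ≤ M) → ∀ j r : ℕ,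
        MB (fun t => ‖dp M c t‖ ^ 2 * ‖zf D a a2 j t‖ ^ (2 * r))
          ((C₂ * A ^ 2 * (Real.exp j * Real.log M / D + r + 1)) ^ r * (2 * N2 M c)))
    {κ : ℝ} (hκ : 11600 * C₂ * Real.exp 1 ≤ κ) (hκ4 : 4 ≤ κ) {D : ℝ} (hD : 1 ≤ D)
    {a a2 : ℕ → ℂ} (ha : ∀ n, ‖a n‖ ≤ 1) (ha2 : ∀ n, ‖a2 n‖ ≤ 1) {M : ℕ} {c : ℕ → ℂ} (hM : 1 ≤ M)
    (hMD : Real.log M ≤ (26 * κ + 5) * D) (hc : ∀ n, c n ≠ 0 → 1 ≤ n ∧ n ≤ M) {j r : ℕ}
    (hr : r ≤ 3 * s7 j) :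
    MB (fun t => ‖dp M c t‖ ^ 2 * (20 * ‖zf D a a2 j t‖ / R9 κ j) ^ (2 * r))
      (Real.exp (-(1 + 8 / 10 * (j : ℝ))) ^ r * (2 * N2 M c)) := by
  have h := hPMT 1 D le_rfl hD a a2 ha ha2 M c hM hc j r
  have hN := N2_nn M c
  have hx0 : 0 ≤ Real.log M / D := div_nonneg (Real.log_nonneg (by exact_mod_cast hM)) (by linarith)
  have hx : Real.log M / D ≤ 26 * κ + 5 := by
    rw [div_le_iff₀ (by linarith)]
    exact hMD
  have h2 := ratio_le hC₂ hκ hκ4 hx0 hx hr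
  have h3 := MB.cmul (c := (400 / (R9 κ j : ℝ) ^ 2) ^ r) (by positivity) h
  have h4 := MB.congr (G := fun t => ‖dp M c t‖ ^ 2 * (20 * ‖zf D a a2 j t‖ / R9 κ j) ^ (2 * r))
    (fun t => by
      have e1 : (20 * ‖zf D a a2 j t‖ / (R9 κ j : ℝ)) ^ 2 =
          400 / (R9 κ j : ℝ) ^ 2 * ‖zf D a a2 j t‖ ^ 2 := by ring
      rw [pow_mul, pow_mul, e1, mul_pow]
      ring) h3
  refine MB.le ?_ h4
  have e : (400 / (R9 κ j : ℝ) ^ 2) ^ r * ((C₂ * 1 ^ 2 * (Real.exp j * Real.log M / D + r + 1)) ^ r *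
      (2 * N2 M c)) = (400 * (C₂ * 1 ^ 2 * (Real.exp j * (Real.log M / D) + r + 1)) /
        (R9 κ j : ℝ) ^ 2) ^ r * (2 * N2 M c) := by
    rw [← mul_assoc, ← mul_pow]
    congr 2
    ring
  rw [e]
  gcongr

/-- the last inequality -/
theorem fin_le {K : ℝ} (hK : 0 ≤ K) (j : ℕ) :
    Real.exp (K * Real.exp ((j : ℝ) / 2)) * Real.exp (-(1 + 8 / 10 * (j : ℝ))) ^ s7 j ≤
      Real.exp ((K + 4) ^ 4) * Real.exp (-(2 * (j : ℝ))) := by
  have hj : (0 : ℝ) ≤ j := Nat.cast_nonneg j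
  rw [← Real.exp_nat_mul, ← Real.exp_add, ← Real.exp_add, Real.exp_le_exp]
  obtain ⟨u, hu⟩ : ∃ u : ℝ, u = Real.exp ((j : ℝ) / 10) := ⟨_, rfl⟩
  have hu1 : 1 ≤ u := by rw [hu]; exact Real.one_le_exp (by positivity)
  have e5 : Real.exp ((j : ℝ) / 2) = u ^ 5 := by
    rw [hu, ← Real.exp_nat_mul]
    congr 1
    push_cast
    ring
  have e7 : Real.exp (7 / 10 * (j : ℝ)) = u ^ 7 := by
    rw [hu, ← Real.exp_nat_mul]
    congr 1
    push_cast
    ring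
  have hs := s7_ge j
  rw [e7] at hs
  have h1 : (s7 j : ℝ) * -(1 + 8 / 10 * (j : ℝ)) ≤ -(u ^ 7) := by
    have h2 : u ^ 7 * 1 ≤ (s7 j : ℝ) * (1 + 8 / 10 * (j : ℝ)) := by gcongr; linarith
    linarith
  have h2 : 2 * (j : ℝ) ≤ 4 * u ^ 5 := by
    have := Real.add_one_le_exp ((j : ℝ) / 2)
    rw [e5] at this
    linarith
  rw [e5]
  have h3 : (K + 4) * u ^ 5 - u ^ 7 ≤ (K + 4) ^ 4 := by
    have h5 : 0 < u ^ 5 := by positivity
    rcases le_total (K + 4) (u ^ 2) with h | h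
    · have h4 : (K + 4) * u ^ 5 ≤ u ^ 2 * u ^ 5 := by gcongr
      have h6 : u ^ 2 * u ^ 5 = u ^ 7 := by ring
      have h7 : 0 ≤ (K + 4) ^ 4 := by positivity
      linarith
    · have h4 : u ^ 5 ≤ u ^ 6 := pow_le_pow_right₀ hu1 (by norm_num)
      have h6 : u ^ 6 ≤ (K + 4) ^ 3 := by
        calc u ^ 6 = (u ^ 2) ^ 3 := by ring
          _ ≤ (K + 4) ^ 3 := by gcongr
      have h7 : (K + 4) * u ^ 5 ≤ (K + 4) * (K + 4) ^ 3 := by
        gcongr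
        exact h4.trans h6
      have h8 : 0 ≤ u ^ 7 := by positivity
      have h9 : (K + 4) * (K + 4) ^ 3 = (K + 4) ^ 4 := by ring
      linarith
  linarith

end

end Pool.Agent.Q176.UM
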