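import Pool.Agent.Q97.UM.Stm6
import Pool.Agent.H153R4.Pl

/-!
# Project UM2: Fourier side of the squared window
-/

set_option autoImplicit false

namespace Pool.Agent.Q176.UM

open Pool.Agent.Q97.UM MeasureTheory Complex Filter Topology
open scoped FourierTransform

noncomputable section

/-- continuous functions with support in `[-a, a]` -/
structure Cp (a : ℝ) (f : ℝ → ℝ) : Prop where
  cont : Continuous f
  supp : ∀ v, a ≤ |v| → f v = 0

theorem Cp.comp {a : ℝ} {f : ℝ → ℝ} (h : Cp a f) : HasCompactSupport f := by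
  refine HasCompactSupport.of_support_subset_isCompact (isCompact_Icc (a := -a) (b := a)) ?_
  intro v hv
  rw [Set.mem_Icc, ← abs_le]
  by_contra hcon
  exact hv (h.supp v (not_le.1 hcon).le)

theorem Cp.compC {a : ℝ} {f : ℝ → ℝ} (h : Cp a f) : HasCompactSupport (fun v => (f v : ℂ)) :=
  h.comp.comp_left (g := fun x : ℝ => (x : ℂ)) (by simp)

theorem Cp.intE {a : ℝ} {f : ℝ → ℝ} (h : Cp a f) (z : ℂ) :
    Integrable (fun v : ℝ => (f v : ℂ) * cexp (I * (v * z))) := by
  refine Continuous.integrable_of_hasCompactSupport ?_ ?_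
  · have := h.cont
    fun_prop
  · exact h.compC.mul_right

/-- Plancherel -/
theorem planch {a : ℝ} {f : ℝ → ℝ} (h : Cp a f) :
    Integrable (fun x : ℝ => ‖om f x‖ ^ 2) ∧ ∫ x : ℝ, ‖om f x‖ ^ 2 = 2 * Real.pi * ∫ v, f v ^ 2 := by
  have hp := Real.pi_pos
  set F : ℝ → ℂ := fun v => (f v : ℂ) with hF
  have hFc : Continuous F := Complex.continuous_ofReal.comp h.cont
  have hF1 : Integrable F := hFc.integrable_of_hasCompactSupport h.compC
  have hF2 : MemLp F 2 := hFc.memLp_of_hasCompactSupport h.compC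
  have hc : Continuous (𝓕 F) :=
    VectorFourier.fourierIntegral_continuous Real.continuous_fourierChar continuous_inner hF1
  have hom : ∀ x : ℝ, om f x = 𝓕 F (-(2 * Real.pi)⁻¹ * x) := by
    intro x
    rw [Real.fourier_real_eq_integral_exp_smul]
    unfold om
    congr 1
    funext v
    rw [smul_eq_mul, mul_comm]
    congr 2
    push_cast
    field_simp
  have hpl := Pool.Agent.H153R4.plancherel F hF1 hF2
  have e : ∀ z : ℂ, ‖z‖ₑ ^ 2 = ENNReal.ofReal (‖z‖ ^ 2) := by
    intro z
    rw [ENNReal.ofReal_pow (norm_nonneg _), ofReal_norm]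
  simp only [e] at hpl
  have hsq : Integrable (fun v => ‖F v‖ ^ 2) := by
    have h1 : Integrable (fun v => f v * f v) :=
      (h.cont.mul h.cont).integrable_of_hasCompactSupport h.comp.mul_right
    refine h1.congr (Eventually.of_forall fun v => ?_)
    simp only [hF, Complex.norm_real, Real.norm_eq_abs, pow_two]
    exact (abs_mul_abs_self (f v)).symm
  have hI : Integrable (fun w => ‖𝓕 F w‖ ^ 2) := by
    refine ⟨(hc.norm.pow 2).aestronglyMeasurable, ?_⟩
    rw [hasFiniteIntegral_iff_ofReal (Eventually.of_forall fun t => by positivity), hpl,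
      ← ofReal_integral_eq_lintegral_ofReal hsq (Eventually.of_forall fun t => by positivity)]
    exact ENNReal.ofReal_lt_top
  have hE : ∫ w, ‖𝓕 F w‖ ^ 2 = ∫ v, ‖F v‖ ^ 2 := by
    rw [integral_eq_lintegral_of_nonneg_ae (Eventually.of_forall fun _ => by positivity) hI.1,
      integral_eq_lintegral_of_nonneg_ae (Eventually.of_forall fun _ => by positivity) hsq.1, hpl]
  have hne : (-(2 * Real.pi)⁻¹ : ℝ) ≠ 0 := neg_ne_zero.2 (by positivity)
  constructor
  · simp_rw [hom]
    exact hI.comp_mul_left' hne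
  · simp_rw [hom]
    rw [Measure.integral_comp_mul_left (fun x => ‖𝓕 F x‖ ^ 2), hE, smul_eq_mul, inv_neg, inv_inv,
      abs_neg, abs_of_pos (by positivity)]
    congr 1
    refine integral_congr_ae (Eventually.of_forall fun v => ?_)
    simp [hF]

theorem qh_supp {a : ℝ} {w : ℝ → ℝ} (h : Cp a w) (v : ℝ) (hv : 2 * a ≤ |v|) : qh w v = 0 := by
  unfold qh
  rw [integral_eq_zero_of_ae]
  refine Eventually.of_forall fun s => ?_
  simp only [Pi.zero_apply]
  by_cases hs : a ≤ |s|
  · rw [h.supp s hs, zero_mul]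
  · rw [h.supp (v - s), mul_zero]
    have := abs_sub_abs_le_abs_sub v s
    linarith [not_le.1 hs]

theorem qh_lip {a : ℝ} {w : ℝ → ℝ} (h : Cp a w) {D : ℝ} (hD : ∀ x y : ℝ, |w x - w y| ≤ D * |x - y|) :
    ∀ x y : ℝ, |qh w x - qh w y| ≤ (D * ∫ s, |w s|) * |x - y| := by
  intro x y
  have hi : ∀ x : ℝ, Integrable (fun s => w s * w (x - s)) := by
    intro x
    refine Continuous.integrable_of_hasCompactSupport ?_ ?_
    · have := h.cont
      fun_prop
    · exact h.comp.mul_right
  have hw : Integrable (fun s => |w s|) := (h.cont.integrable_of_hasCompactSupport h.comp).abs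
  unfold qh
  rw [← integral_sub (hi x) (hi y)]
  have e : (D * ∫ s, |w s|) * |x - y| = ∫ s, |w s| * (D * |x - y|) := by
    rw [integral_mul_const]
    ring
  rw [e]
  refine abs_integral_le_integral_abs.trans ?_
  refine integral_mono ((hi x).sub (hi y)).abs (hw.mul_const _) fun s => ?_
  have e1 : w s * w (x - s) - w s * w (y - s) = w s * (w (x - s) - w (y - s)) := by ring
  simp only []
  rw [e1, abs_mul]
  refine mul_le_mul_of_nonneg_left ?_ (abs_nonneg _)
  have := hD (x - s) (y - s)
  rwa [sub_sub_sub_cancel_right] at this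

theorem qh_even {w : ℝ → ℝ} (h : ∀ v : ℝ, w (-v) = w v) (v : ℝ) : qh w (-v) = qh w v := by
  unfold qh
  rw [← integral_neg_eq_self]
  congr 1
  funext s
  rw [h s]
  congr 1
  rw [← h]
  congr 1
  ring

theorem om_sq {a : ℝ} {w : ℝ → ℝ} (h : Cp a w) (z : ℂ) : om w z ^ 2 = om (qh w) z := by
  have hi := h.intE z
  have h1 := integral_convolution (ContinuousLinearMap.mul ℝ ℂ) hi hi
    (μ := (volume : Measure ℝ)) (ν := (volume : Measure ℝ))
  have h2 : om w z ^ 2 = (ContinuousLinearMap.mul ℝ ℂ) (∫ v : ℝ, (w v : ℂ) * cexp (I * (v * z)))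
      (∫ v : ℝ, (w v : ℂ) * cexp (I * (v * z))) := by
    rw [ContinuousLinearMap.mul_apply', pow_two]
    rfl
  rw [h2, ← h1]
  unfold om
  congr 1
  funext v
  unfold qh convolution
  simp only [ContinuousLinearMap.mul_apply']
  rw [← integral_complex_ofReal, ← integral_mul_const]
  congr 1
  funext s
  have e : cexp (I * (v * z)) = cexp (I * (s * z)) * cexp (I * (((v - s : ℝ) : ℂ) * z)) := by
    rw [← Complex.exp_add]
    congr 1
    push_cast
    ring
  rw [e]
  push_cast
  ring

/-! ### the two elementary integrals -/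

theorem integrable_abs {f : ℝ → ℝ} (hf : IntegrableOn f (Set.Ioi 0)) :
    Integrable (fun x : ℝ => f |x|) := by
  have h1 : IntegrableOn (fun x : ℝ => f |x|) (Set.Ioi 0) := by
    refine hf.congr_fun (fun x hx => ?_) measurableSet_Ioi
    rw [abs_of_pos hx]
  have h2 : IntegrableOn (fun x : ℝ => f |x|) (Set.Iic 0) := by
    rw [← Measure.map_neg_eq_self (volume : Measure ℝ)]
    let m : MeasurableEmbedding fun x : ℝ => -x := (Homeomorph.neg ℝ).measurableEmbedding
    rw [m.integrableOn_map_iff]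
    simp_rw [Function.comp_def, abs_neg, Set.neg_preimage, Set.neg_Iic, neg_zero]
    exact Iff.mpr integrableOn_Ici_iff_integrableOn_Ioi h1
  have h3 := h2.union h1
  rwa [Set.Iic_union_Ioi, integrableOn_univ] at h3

theorem near_int {H : ℝ} (hH : 0 ≤ H) :
    Integrable (fun x : ℝ => (Set.Icc (-H) H).indicator (fun x => 1 / (1 + (H - |x|)) ^ 2) x) ∧
    ∫ x : ℝ, (Set.Icc (-H) H).indicator (fun x => 1 / (1 + (H - |x|)) ^ 2) x ≤ 2 := by
  set f : ℝ → ℝ := (Set.Iic H).indicator (fun y => 1 / (1 + (H - y)) ^ 2) with hf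
  have e1 : (fun x : ℝ => (Set.Icc (-H) H).indicator (fun x => 1 / (1 + (H - |x|)) ^ 2) x) =
      fun x => f |x| := by
    funext x
    simp only [hf, Set.indicator_apply, Set.mem_Icc, Set.mem_Iic, ← abs_le]
  have hcont : ContinuousOn (fun x : ℝ => 1 / (1 + (H - |x|)) ^ 2) (Set.Icc (-H) H) := by
    refine ContinuousOn.div continuousOn_const (by fun_prop) fun x hx => ?_
    have : |x| ≤ H := abs_le.2 hx
    have : 0 < 1 + (H - |x|) := by linarith
    positivity
  refine ⟨?_, ?_⟩
  · rw [integrable_indicator_iff measurableSet_Icc]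
    exact hcont.integrableOn_Icc
  · rw [e1, integral_comp_abs]
    have e2 : ∫ y in Set.Ioi (0 : ℝ), f y = ∫ y in (0 : ℝ)..H, 1 / (1 + (H - y)) ^ 2 := by
      rw [intervalIntegral.integral_of_le hH, hf, setIntegral_indicator measurableSet_Iic]
      rfl
    have e3 : ∫ y in (0 : ℝ)..H, 1 / (1 + (H - y)) ^ 2 = 1 / (1 + (H - H)) - 1 / (1 + (H - 0)) := by
      refine intervalIntegral.integral_eq_sub_of_hasDerivAt (f := fun y => 1 / (1 + (H - y)))
        (fun y hy => ?_) ?_
      · rw [Set.uIcc_of_le hH] at hy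
        have h1 : 0 < 1 + (H - y) := by linarith [hy.2]
        have h2 : HasDerivAt (fun y : ℝ => 1 + (H - y)) (-1) y := by
          have := ((hasDerivAt_id y).const_sub H).const_add 1
          simpa using this
        have h3 := h2.inv h1.ne'
        have h4 : - -1 / (1 + (H - y)) ^ 2 = 1 / (1 + (H - y)) ^ 2 := by ring
        have h5 : (fun y : ℝ => 1 / (1 + (H - y))) = (fun y => 1 + (H - y))⁻¹ := by
          funext y
          simp [one_div]
        rw [h5, ← h4]
        exact h3
      · refine ContinuousOn.intervalIntegrable ?_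
        rw [Set.uIcc_of_le hH]
        refine ContinuousOn.div continuousOn_const (by fun_prop) fun y hy => ?_
        have : 0 < 1 + (H - y) := by linarith [hy.2]
        positivity
    rw [e2, e3]
    have : 0 ≤ 1 / (1 + (H - 0)) := by positivity
    rw [sub_self, add_zero, div_one]
    linarith

theorem far_int {H : ℝ} (hH : 0 ≤ H) :
    Integrable (fun x : ℝ => (Set.Icc (-H) H)ᶜ.indicator (fun x => 1 / (1 + (|x| - H)) ^ 2) x) ∧
    ∫ x : ℝ, (Set.Icc (-H) H)ᶜ.indicator (fun x => 1 / (1 + (|x| - H)) ^ 2) x ≤ 2 := by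
  set f : ℝ → ℝ := (Set.Ioi H).indicator (fun y => 1 / (1 + (y - H)) ^ 2) with hf
  have e1 : (fun x : ℝ => (Set.Icc (-H) H)ᶜ.indicator (fun x => 1 / (1 + (|x| - H)) ^ 2) x) =
      fun x => f |x| := by
    funext x
    simp only [hf, Set.indicator_apply, Set.mem_compl_iff, Set.mem_Icc, Set.mem_Ioi, ← abs_le,
      not_le]
  have hd : ∀ y ∈ Set.Ici H, HasDerivAt (fun y => -(1 / (1 + (y - H)))) (1 / (1 + (y - H)) ^ 2) y := by
    intro y hy
    have h1 : 0 < 1 + (y - H) := by linarith [Set.mem_Ici.1 hy]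
    have h2 : HasDerivAt (fun y : ℝ => 1 + (y - H)) 1 y := by
      have := ((hasDerivAt_id y).sub_const H).const_add 1
      simpa using this
    have h3 := (h2.inv h1.ne').neg
    have h4 : -(-1 / (1 + (y - H)) ^ 2) = 1 / (1 + (y - H)) ^ 2 := by ring
    have h5 : (fun y : ℝ => -(1 / (1 + (y - H)))) = -(fun y => 1 + (y - H))⁻¹ := by
      funext y
      simp [one_div]
    rw [h5, ← h4]
    exact h3
  have hpos : ∀ y ∈ Set.Ioi H, 0 ≤ 1 / (1 + (y - H)) ^ 2 := fun y _ => by positivity
  have hlim : Tendsto (fun y : ℝ => -(1 / (1 + (y - H)))) atTop (𝓝 0) := by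
    have h1 : Tendsto (fun y : ℝ => 1 + (y - H)) atTop atTop :=
      tendsto_atTop_add_const_left _ _ (tendsto_atTop_add_const_right _ (-H) tendsto_id)
    have h2 := h1.inv_tendsto_atTop.neg
    rw [neg_zero] at h2
    simp only [one_div]
    exact h2
  have hint := integrableOn_Ioi_deriv_of_nonneg' hd hpos hlim
  have hval := integral_Ioi_of_hasDerivAt_of_nonneg' hd hpos hlim
  have e2 : ∫ y in Set.Ioi (0 : ℝ), f y = 1 := by
    rw [hf, setIntegral_indicator measurableSet_Ioi]
    have : Set.Ioi (0 : ℝ) ∩ Set.Ioi H = Set.Ioi H := by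
      rw [Set.Ioi_inter_Ioi, max_eq_right hH]
    rw [this, hval]
    simp
  refine ⟨?_, ?_⟩
  · rw [e1]
    have h1 : IntegrableOn f (Set.Ioi 0) := by
      rw [hf, integrableOn_indicator_iff measurableSet_Ioi]
      exact hint.mono_set (Set.inter_subset_left)
    exact integrable_abs h1
  · rw [e1, integral_comp_abs, e2]
    norm_num

/-- a function close to the indicator function of `[-H, H]` -/
theorem mass_bound {H P Q : ℝ} (hH : 0 ≤ H) (hP : 0 ≤ P) (hQ : 0 ≤ Q) {g : ℝ → ℝ} (hg : Integrable g)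
    (h0 : ∀ x, 0 ≤ g x) (h1 : ∀ x, g x ≤ 1)
    (hn : ∀ x, |x| ≤ H → 1 - g x ≤ P * (1 / (1 + (H - |x|)) ^ 2))
    (hf : ∀ x, H ≤ |x| → g x ≤ Q * (1 / (1 + (|x| - H)) ^ 2)) :
    2 * H - 2 * P ≤ ∫ x, g x ∧ ∫ x, g x ≤ 2 * H + 2 * Q := by
  obtain ⟨n1, n2⟩ := near_int hH
  obtain ⟨f1, f2⟩ := far_int hH
  set N : ℝ → ℝ := fun x => (Set.Icc (-H) H).indicator (fun x => 1 / (1 + (H - |x|)) ^ 2) x with hN
  set F : ℝ → ℝ := fun x => (Set.Icc (-H) H)ᶜ.indicator (fun x => 1 / (1 + (|x| - H)) ^ 2) x with hF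
  have i1 : Integrable (fun x : ℝ => (Set.Icc (-H) H).indicator (fun _ => (1 : ℝ)) x) := by
    rw [integrable_indicator_iff measurableSet_Icc]
    exact integrableOn_const (by simp)
  have i2 : ∫ x : ℝ, (Set.Icc (-H) H).indicator (fun _ => (1 : ℝ)) x = 2 * H := by
    rw [integral_indicator measurableSet_Icc]
    simp only [integral_const, MeasurableSet.univ, measureReal_restrict_apply, Set.univ_inter,
      Real.volume_real_Icc_of_le (show -H ≤ H by linarith), smul_eq_mul, mul_one]
    ring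
  constructor
  · have h2 : ∫ x, ((Set.Icc (-H) H).indicator (fun _ => (1 : ℝ)) x - P * N x) ≤ ∫ x, g x := by
      refine integral_mono (i1.sub (n1.const_mul P)) hg fun x => ?_
      simp only [hN]
      by_cases hx : x ∈ Set.Icc (-H) H
      · rw [Set.indicator_of_mem hx, Set.indicator_of_mem hx]
        have := hn x (abs_le.2 hx)
        linarith
      · rw [Set.indicator_of_notMem hx, Set.indicator_of_notMem hx]
        simpa using h0 x
    rw [integral_sub i1 (n1.const_mul P), i2, integral_const_mul] at h2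
    have := mul_le_mul_of_nonneg_left n2 hP
    linarith
  · have h2 : ∫ x, g x ≤ ∫ x, ((Set.Icc (-H) H).indicator (fun _ => (1 : ℝ)) x + Q * F x) := by
      refine integral_mono hg (i1.add (f1.const_mul Q)) fun x => ?_
      simp only [hF]
      by_cases hx : x ∈ Set.Icc (-H) H
      · rw [Set.indicator_of_mem hx, Set.indicator_of_notMem (by simpa using hx)]
        simpa using h1 x
      · rw [Set.indicator_of_notMem hx, Set.indicator_of_mem (by simpa using hx)]
        have h3 : H ≤ |x| := by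
          by_contra hcon
          exact hx (abs_le.1 (not_le.1 hcon).le)
        have := hf x h3
        linarith
    rw [integral_add i1 (f1.const_mul Q), i2, integral_const_mul] at h2
    have := mul_le_mul_of_nonneg_left f2 hQ
    linarith

theorem t_QH : S_QH := by
  intro δ H C K w hδ hδ1 hH hC hK hw
  obtain ⟨D, hD⟩ := hw.lip
  have hp := Real.pi_pos
  have hcw : Continuous w := by
    have : LipschitzWith (Real.toNNReal D) w := by
      refine LipschitzWith.of_dist_le_mul fun x y => ?_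
      rw [Real.dist_eq, Real.dist_eq]
      exact (hD x y).trans (mul_le_mul_of_nonneg_right (Real.le_coe_toNNReal D) (abs_nonneg _))
    exact this.continuous
  have hcp : Cp δ w := ⟨hcw, hw.supp⟩
  have hql := qh_lip hcp hD
  have hcq : Continuous (qh w) := by
    have : LipschitzWith (Real.toNNReal (D * ∫ s, |w s|)) (qh w) := by
      refine LipschitzWith.of_dist_le_mul fun x y => ?_
      rw [Real.dist_eq, Real.dist_eq]
      exact (hql x y).trans (mul_le_mul_of_nonneg_right (Real.le_coe_toNNReal _) (abs_nonneg _))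
    exact this.continuous
  have hqc : Cp (2 * δ) (qh w) := ⟨hcq, fun v hv => qh_supp hcp v hv⟩
  obtain ⟨a1, a2⟩ := planch hcp
  obtain ⟨b1, b2⟩ := planch hqc
  have hno : ∀ x : ℝ, ‖om w x‖ = (om w x).re := by
    intro x
    obtain ⟨u1, u2, u3⟩ := hw.unit x
    have : om w x = ((om w x).re : ℂ) := by
      apply Complex.ext <;> simp [u1]
    rw [this, Complex.norm_real, Real.norm_eq_abs, abs_of_nonneg (by simpa using u2)]
    simp
  have hnq : ∀ x : ℝ, ‖om (qh w) x‖ ^ 2 = (om w x).re ^ 4 := by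
    intro x
    rw [← om_sq hcp, norm_pow, hno]
    ring
  have hpow : ∀ y : ℝ, 0 ≤ y → C / (1 + y) ^ K ≤ C * (1 / (1 + y) ^ 2) := by
    intro y hy
    rw [mul_one_div]
    refine div_le_div_of_nonneg_left (by linarith) (by positivity) ?_
    exact pow_le_pow_right₀ (by linarith) hK
  have hnear : ∀ x : ℝ, |x| ≤ H → 1 - (om w x).re ≤ C * (1 / (1 + (H - |x|)) ^ 2) := by
    intro x hx
    have h1 := hw.near x (by simpa using hx)
    simp only [ofReal_re, ofReal_im, abs_zero, mul_zero, Real.exp_zero, mul_one] at h1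
    have h2 : 1 - (om w x).re ≤ ‖om w x - 1‖ := by
      have := (abs_re_le_norm (om w x - 1))
      have h3 := neg_abs_le (om w x - 1).re
      simp only [sub_re, one_re] at this h3
      linarith
    exact (h2.trans h1).trans (hpow _ (by linarith))
  have hfar : ∀ x : ℝ, H ≤ |x| → (om w x).re ≤ C * (1 / (1 + (|x| - H)) ^ 2) := by
    intro x hx
    have h1 := hw.far x (by simpa using hx)
    simp only [ofReal_re, ofReal_im, abs_zero, mul_zero, Real.exp_zero, mul_one] at h1
    rw [hno] at h1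
    exact h1.trans (hpow _ (by linarith))
  have hmass : ∀ p : ℕ, 1 ≤ p → (∀ y : ℝ, 0 ≤ y → y ≤ 1 → 1 - y ^ p ≤ p * (1 - y)) →
      Integrable (fun x : ℝ => (om w x).re ^ p) →
      2 * H - 2 * (p * C) ≤ ∫ x : ℝ, (om w x).re ^ p ∧ ∫ x : ℝ, (om w x).re ^ p ≤ 2 * H + 2 * C := by
    intro p hp1 hb hi
    refine mass_bound (by linarith) (by positivity) (by linarith) hi (fun x => ?_) (fun x => ?_)
      (fun x hx => ?_) (fun x hx => ?_)
    · exact pow_nonneg (hw.unit x).2.1 _
    · exact pow_le_one₀ (hw.unit x).2.1 (hw.unit x).2.2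
    · refine (hb _ (hw.unit x).2.1 (hw.unit x).2.2).trans ?_
      rw [mul_assoc]
      exact mul_le_mul_of_nonneg_left (hnear x hx) (by positivity)
    · refine le_trans ?_ (hfar x hx)
      calc (om w x).re ^ p ≤ (om w x).re ^ 1 :=
            pow_le_pow_of_le_one (hw.unit x).2.1 (hw.unit x).2.2 hp1
        _ = _ := pow_one _
  have hq0 : qh w 0 = ∫ v, w v ^ 2 := by
    unfold qh
    congr 1
    funext s
    rw [zero_sub, hw.even, pow_two]
  refine ⟨⟨_, hql⟩, qh_even hw.even, hqc.supp, fun z => om_sq hcp z, ?_, ?_⟩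
  · have h2 : ∀ x : ℝ, ‖om w x‖ ^ 2 = (om w x).re ^ 2 := fun x => by rw [hno]
    simp only [h2] at a1 a2
    obtain ⟨c1, c2⟩ := hmass 2 (by norm_num) (fun y hy hy1 => by push_cast; nlinarith) a1
    rw [hq0]
    rw [a2] at c1 c2
    push_cast at c1
    rw [abs_le]
    constructor <;> nlinarith
  · simp only [hnq] at b1 b2
    obtain ⟨c1, c2⟩ := hmass 4 (by norm_num) (fun y hy hy1 => by
      push_cast
      nlinarith [mul_nonneg (mul_nonneg hy hy) (sub_nonneg.2 hy1), mul_nonneg hy (sub_nonneg.2 hy1),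
        mul_nonneg (mul_nonneg (mul_nonneg hy hy) hy) (sub_nonneg.2 hy1)]) b1
    have hI : I2 w = ∫ v, qh w v ^ 2 := rfl
    rw [hI]
    rw [b2] at c1 c2
    push_cast at c1
    have hC4 : C ≤ C ^ 4 := by
      calc C = C ^ 1 := (pow_one C).symm
        _ ≤ C ^ 4 := pow_le_pow_right₀ hC (by norm_num)
    rw [abs_le]
    constructor <;> nlinarith

end

end Pool.Agent.Q176.UM
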