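import Pool.Agent.Q176.UM.MBx

/-!
# Project UM8 (helper97), job STR: the blocks which are not good
-/

set_option autoImplicit false

namespace Pool.Agent.Q176.UM

open Pool.Agent.Q97.UM MeasureTheory Complex Filter Topology

noncomputable section

theorem amgm3 {x y z : ℝ} (hx : 0 ≤ x) (hy : 0 ≤ y) (hz : 0 ≤ z) :
    x * y * z ≤ x ^ 3 + y ^ 3 + z ^ 3 := by
  have h : x ^ 3 + y ^ 3 + z ^ 3 - 3 * (x * y * z) =
      (x + y + z) * ((x - y) ^ 2 + (y - z) ^ 2 + (z - x) ^ 2) / 2 := by ring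
  have h1 : 0 ≤ (x + y + z) * ((x - y) ^ 2 + (y - z) ^ 2 + (z - x) ^ 2) / 2 := by positivity
  have h2 : 0 ≤ x * y * z := by positivity
  linarith

theorem cube_le {u : ℝ} (hu : 0 ≤ u) : (1 + u) ^ 3 ≤ 4 * (1 + u ^ 3) := by
  nlinarith [mul_nonneg (show 0 ≤ 1 + u by linarith) (sq_nonneg (u - 1))]

/-- the pointwise inequality -/
theorem str_pt {S y Y p₁ p₃ : ℝ} (hp₁ : 0 < p₁) (hp₃ : 0 < p₃) (hY : 0 ≤ Y)
    (hy : 0 ≤ y) (s s' : ℕ) :
    Real.exp (6 * S) * (1 + y ^ (2 * s')) * Y ^ (2 * s) ≤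
      p₁ * p₃ * ((p₁ ^ 3)⁻¹ * Real.exp (18 * S) + 4 * (1 + y ^ (2 * (3 * s'))) +
        (p₃ ^ 3)⁻¹ * Y ^ (2 * (3 * s))) := by
  have h1 := amgm3 (x := p₁⁻¹ * Real.exp (6 * S)) (y := 1 + y ^ (2 * s')) (z := p₃⁻¹ * Y ^ (2 * s))
    (by positivity) (by positivity) (by positivity)
  have h2 := cube_le (u := y ^ (2 * s')) (by positivity)
  have e1 : (p₁⁻¹ * Real.exp (6 * S)) ^ 3 = (p₁ ^ 3)⁻¹ * Real.exp (18 * S) := by
    rw [mul_pow, inv_pow, ← Real.exp_nat_mul]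
    congr 2
    push_cast
    ring
  have e2 : (y ^ (2 * s')) ^ 3 = y ^ (2 * (3 * s')) := by
    rw [← pow_mul]
    congr 1
    ring
  have e3 : (p₃⁻¹ * Y ^ (2 * s)) ^ 3 = (p₃ ^ 3)⁻¹ * Y ^ (2 * (3 * s)) := by
    rw [mul_pow, inv_pow, ← pow_mul]
    congr 2
    ring
  rw [e2] at h2
  rw [e1, e3] at h1
  have e4 : Real.exp (6 * S) * (1 + y ^ (2 * s')) * Y ^ (2 * s) =
      p₁ * p₃ * (p₁⁻¹ * Real.exp (6 * S) * (1 + y ^ (2 * s')) * (p₃⁻¹ * Y ^ (2 * s))) := by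
    field_simp
  rw [e4]
  refine mul_le_mul_of_nonneg_left ?_ (by positivity)
  linarith

theorem t_STR : J_STR := by
  intro hCOF hPMT hXM hJL hMVL m
  obtain ⟨C₂, hC₂, hPMT⟩ := hPMT
  obtain ⟨κJ, hκJ4, hJL⟩ := hJL m
  refine ⟨max κJ (11600 * C₂ * Real.exp 1), hκJ4.trans (le_max_left _ _), fun κ hκ => ?_⟩
  have hκJ : κJ ≤ κ := (le_max_left _ _).trans hκ
  have hκ4 : 4 ≤ κ := hκJ4.trans hκJ
  have hκe : 11600 * C₂ * Real.exp 1 ≤ κ := (le_max_right _ _).trans hκ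
  obtain ⟨CJ, hCJ, hJL⟩ := hJL κ hκJ
  obtain ⟨C₁, hC₁, hXM⟩ := hXM (26 * κ + 5) 18 1 m (by linarith) (by norm_num) le_rfl
  obtain ⟨K, hK⟩ : ∃ K : ℝ, K = C₁ / 3 + CJ := ⟨_, rfl⟩
  have hK0 : 0 ≤ K := by rw [hK]; positivity
  refine ⟨1 + 38 * m * Real.exp ((K + 4) ^ 4), by
    have : 0 ≤ 38 * m * Real.exp ((K + 4) ^ 4) := by positivity
    linarith, ?_⟩
  intro D hD k a a2 hF N b hN1 hND hb W hW j' j i' hj
  -- the polynomial `h`
  obtain ⟨M, c, hM1, hMD, hc, hdp⟩ := (hCOF κ D (by linarith) hD (lc k a) (lc k a2) (a i') (a2 i')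
    (j + 1) 0).2.2 N b hN1 hND hb
  have hdp' : ∀ t, dp M c t = Ef D κ (lc k a) (lc k a2) (j + 1) t * dp N b t := by
    intro t
    rw [hdp t]
    simp [pw]
  have hc' : ∀ n, c n ≠ 0 → 1 ≤ n ∧ n ≤ M := fun n hn => ⟨(hc n hn).1, (hc n hn).2.1⟩
  have hMD' : Real.log M ≤ (26 * κ + 5) * D := by linarith
  have hJ := hJL D hD k a a2 hF N b hN1 hND hb W hW j
  have hJ' := MB.congr (G := fun t => ‖dp M c t‖ ^ 2) (fun t => by rw [hdp' t]) hJ
  have hN2 := N2_le hMVL hJ'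
  have hW0 : 0 ≤ W := MB.nonneg (fun t => by positivity) hW
  have hNn := N2_nn M c
  -- the three moments
  have x1 := hXM D hD a a2 hF.b1 hF.b2 M c hM1 hMD' hc' j
  have x2 := MB_dp hMVL M c
  have x3 := blk hC₂ hPMT hκe hκ4 hD (hF.b1 i') (hF.b2 i') hM1 hMD' hc' (j := j')
    (r := 3 * s7 j') le_rfl
  obtain ⟨p₁, hp₁⟩ : ∃ p : ℝ, p = Real.exp (C₁ * Real.exp ((j : ℝ) / 2) / 3) := ⟨_, rfl⟩
  obtain ⟨p₃, hp₃⟩ : ∃ p : ℝ, p = Real.exp (-(1 + 8 / 10 * (j : ℝ))) ^ s7 j := ⟨_, rfl⟩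
  have hp₁0 : 0 < p₁ := by rw [hp₁]; positivity
  have hp₃0 : 0 < p₃ := by rw [hp₃]; positivity
  have hp₁3 : p₁ ^ 3 = Real.exp (C₁ * Real.exp ((j : ℝ) / 2)) := by
    rw [hp₁, ← Real.exp_nat_mul]
    congr 1
    push_cast
    ring
  have hzc : ∀ (i : Fin m) (l : ℕ), Continuous (zf D (a i) (a2 i) l) := fun i l => zf_cont _ _ _ _
  have hSc : Continuous fun t => ∑ i, ∑ l ∈ Finset.range (j + 1), ‖zf D (a i) (a2 i) l t‖ :=
    continuous_finsetSum _ fun i _ => continuous_finsetSum _ fun l _ => (hzc i l).norm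
  have hdc : Continuous (dp M c) := dp_cont M c
  have hEc := Ef_cont D κ (lc k a) (lc k a2) (j + 1)
  have hBc := dp_cont N b
  have one : ∀ i : Fin m, MB (fun t => ‖Ef D κ (lc k a) (lc k a2) (j + 1) t * dp N b t‖ ^ 2 *
        Real.exp (6 * ∑ i, ∑ l ∈ Finset.range (j + 1), ‖zf D (a i) (a2 i) l t‖) *
        (1 + (20 * ‖zf D (a i') (a2 i') j' t‖ / R9 κ j') ^ (2 * s7 j')) *
        (20 * ‖zf D (a i) (a2 i) j t‖ / R9 κ j) ^ (2 * s7 j)) (p₁ * p₃ * (19 * N2 M c)) := by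
    intro i
    have x4 := blk hC₂ hPMT hκe hκ4 hD (hF.b1 i) (hF.b2 i) hM1 hMD' hc' (j := j)
      (r := 3 * s7 j) le_rfl
    have y1 : MB (fun t => (p₁ ^ 3)⁻¹ * (‖dp M c t‖ ^ 2 *
        Real.exp (18 * ∑ i, ∑ l ∈ Finset.range (j + 1), ‖zf D (a i) (a2 i) l t‖))) (N2 M c) := by
      refine MB.le (le_of_eq ?_) (MB.cmul (c := (p₁ ^ 3)⁻¹) (by positivity) x1)
      rw [hp₁3]
      field_simp
    have y2 : MB (fun t => 4 * ‖dp M c t‖ ^ 2) (8 * N2 M c) :=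
      MB.le (by linarith) (MB.cmul (c := 4) (by norm_num) x2)
    have y3 : MB (fun t => 4 * (‖dp M c t‖ ^ 2 *
        (20 * ‖zf D (a i') (a2 i') j' t‖ / R9 κ j') ^ (2 * (3 * s7 j')))) (8 * N2 M c) := by
      refine MB.le ?_ (MB.cmul (c := 4) (by norm_num) x3)
      have h1 : Real.exp (-(1 + 8 / 10 * (j' : ℝ))) ^ (3 * s7 j') ≤ 1 := by
        refine pow_le_one₀ (Real.exp_pos _).le ?_
        rw [Real.exp_le_one_iff]
        have : (0 : ℝ) ≤ j' := Nat.cast_nonneg _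
        linarith
      have h2 := mul_le_mul_of_nonneg_right h1 (show 0 ≤ 2 * N2 M c by linarith)
      linarith
    have y4 : MB (fun t => (p₃ ^ 3)⁻¹ * (‖dp M c t‖ ^ 2 *
        (20 * ‖zf D (a i) (a2 i) j t‖ / R9 κ j) ^ (2 * (3 * s7 j)))) (2 * N2 M c) := by
      refine MB.le (le_of_eq ?_) (MB.cmul (c := (p₃ ^ 3)⁻¹) (by positivity) x4)
      rw [hp₃, ← pow_mul, mul_comm (s7 j) 3]
      field_simp
    have c1 : Continuous fun t => (p₁ ^ 3)⁻¹ * (‖dp M c t‖ ^ 2 *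
        Real.exp (18 * ∑ i, ∑ l ∈ Finset.range (j + 1), ‖zf D (a i) (a2 i) l t‖)) :=
      continuous_const.mul ((hdc.norm.pow 2).mul (Real.continuous_exp.comp
        (continuous_const.mul hSc)))
    have c2 : Continuous fun t => 4 * ‖dp M c t‖ ^ 2 := continuous_const.mul (hdc.norm.pow 2)
    have c3 : Continuous fun t => 4 * (‖dp M c t‖ ^ 2 *
        (20 * ‖zf D (a i') (a2 i') j' t‖ / R9 κ j') ^ (2 * (3 * s7 j'))) :=
      continuous_const.mul ((hdc.norm.pow 2).mul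
        (((continuous_const.mul (hzc i' j').norm).div_const _).pow _))
    have c4 : Continuous fun t => (p₃ ^ 3)⁻¹ * (‖dp M c t‖ ^ 2 *
        (20 * ‖zf D (a i) (a2 i) j t‖ / R9 κ j) ^ (2 * (3 * s7 j))) :=
      continuous_const.mul ((hdc.norm.pow 2).mul
        (((continuous_const.mul (hzc i j).norm).div_const _).pow _))
    have y5 := MB.add ((c1.add c2).add c3) c4 (MB.add (c1.add c2) c3 (MB.add c1 c2 y1 y2) y3) y4
    have y6 := MB.cmul (c := p₁ * p₃) (by positivity) y5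
    have y7 : MB (fun t => p₁ * p₃ * ((p₁ ^ 3)⁻¹ * (‖dp M c t‖ ^ 2 *
        Real.exp (18 * ∑ i, ∑ l ∈ Finset.range (j + 1), ‖zf D (a i) (a2 i) l t‖)) +
        4 * ‖dp M c t‖ ^ 2 + 4 * (‖dp M c t‖ ^ 2 *
        (20 * ‖zf D (a i') (a2 i') j' t‖ / R9 κ j') ^ (2 * (3 * s7 j'))) +
        (p₃ ^ 3)⁻¹ * (‖dp M c t‖ ^ 2 *
        (20 * ‖zf D (a i) (a2 i) j t‖ / R9 κ j) ^ (2 * (3 * s7 j))))) (p₁ * p₃ * (19 * N2 M c)) :=
      MB.le (le_of_eq (by ring)) y6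
    refine MB.mono ?_ ?_ (fun t => ?_) y7
    · refine Continuous.mul (Continuous.mul (Continuous.mul ((hEc.mul hBc).norm.pow 2) ?_) ?_) ?_
      · exact Real.continuous_exp.comp (continuous_const.mul hSc)
      · exact continuous_const.add (((continuous_const.mul (hzc i' j').norm).div_const _).pow _)
      · exact ((continuous_const.mul (hzc i j).norm).div_const _).pow _
    · exact continuous_const.mul (((c1.add c2).add c3).add c4)
    · rw [← hdp' t]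
      have h1 := str_pt (S := ∑ i, ∑ l ∈ Finset.range (j + 1), ‖zf D (a i) (a2 i) l t‖)
        (y := 20 * ‖zf D (a i') (a2 i') j' t‖ / R9 κ j') (Y := 20 * ‖zf D (a i) (a2 i) j t‖ / R9 κ j)
        hp₁0 hp₃0 (by positivity) (by positivity) (s7 j) (s7 j')
      have h2 := mul_le_mul_of_nonneg_left h1 (show 0 ≤ ‖dp M c t‖ ^ 2 by positivity)
      refine le_trans (le_of_eq ?_) (h2.trans (le_of_eq ?_))
      · ring
      · ring
  have hsum := MB.sum (Finset.univ : Finset (Fin m)) (C := fun _ => p₁ * p₃ * (19 * N2 M c))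
    (fun i _ => by
      refine Continuous.mul (Continuous.mul (Continuous.mul ((hEc.mul hBc).norm.pow 2) ?_) ?_) ?_
      · exact Real.continuous_exp.comp (continuous_const.mul hSc)
      · exact continuous_const.add (((continuous_const.mul (hzc i' j').norm).div_const _).pow _)
      · exact ((continuous_const.mul (hzc i j).norm).div_const _).pow _)
    (fun i _ => one i)
  have hsum' := MB.congr (G := fun t => ‖Ef D κ (lc k a) (lc k a2) (j + 1) t * dp N b t‖ ^ 2 *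
        Real.exp (6 * ∑ i, ∑ l ∈ Finset.range (j + 1), ‖zf D (a i) (a2 i) l t‖) *
        (1 + (20 * ‖zf D (a i') (a2 i') j' t‖ / R9 κ j') ^ (2 * s7 j')) *
        ∑ i, (20 * ‖zf D (a i) (a2 i) j t‖ / R9 κ j) ^ (2 * s7 j))
    (fun t => (Finset.mul_sum _ _ _).symm) hsum
  refine MB.le ?_ hsum'
  rw [Finset.sum_const, Finset.card_univ, Fintype.card_fin, nsmul_eq_mul]
  have hfin := fin_le hK0 j
  have e1 : p₁ * Real.exp (CJ * Real.exp ((j : ℝ) / 2)) =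
      Real.exp (K * Real.exp ((j : ℝ) / 2)) := by
    rw [hp₁, ← Real.exp_add, hK]
    congr 1
    ring
  calc (m : ℝ) * (p₁ * p₃ * (19 * N2 M c)) ≤
      m * (p₁ * p₃ * (19 * (2 * (Real.exp (CJ * Real.exp ((j : ℝ) / 2)) * W)))) := by gcongr
    _ = 38 * m * (p₁ * Real.exp (CJ * Real.exp ((j : ℝ) / 2)) * p₃) * W := by ring
    _ ≤ 38 * m * (Real.exp ((K + 4) ^ 4) * Real.exp (-(2 * (j : ℝ)))) * W := by
        rw [e1, hp₃]
        gcongr
    _ ≤ (1 + 38 * m * Real.exp ((K + 4) ^ 4)) * Real.exp (-(2 * (j : ℝ))) * W := by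
        have : 0 ≤ Real.exp (-(2 * (j : ℝ))) * W := by positivity
        nlinarith

end

end Pool.Agent.Q176.UM
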