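import Pool.Agent.Q176.UM.MBx

/-!
# Project UM8 (helper97), job TOR: assembly of the mean values
-/

set_option autoImplicit false

namespace Pool.Agent.Q176.UM

open Pool.Agent.Q97.UM MeasureTheory Complex Filter Topology

noncomputable section

/-! ### linearity -/

theorem qb_lc {m : ℕ} (D : ℝ) (k : Fin m → ℝ) (a a2 : Fin m → ℕ → ℂ) (j n : ℕ) :
    qb D (lc k a) (lc k a2) j n = ∑ i, (k i : ℂ) * qb D (a i) (a2 i) j n := by
  unfold qb lc
  simp only [mul_add, Finset.sum_add_distrib]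
  congr 1
  · split_ifs <;> simp
  · split_ifs
    · rw [Finset.sum_div]
      exact Finset.sum_congr rfl fun i _ => by ring
    · simp

theorem zf_lc {m : ℕ} (D : ℝ) (k : Fin m → ℝ) (a a2 : Fin m → ℕ → ℂ) (j : ℕ) (t : ℝ) :
    zf D (lc k a) (lc k a2) j t = ∑ i, (k i : ℂ) * zf D (a i) (a2 i) j t := by
  unfold zf dp
  simp only [qb_lc, Finset.mul_sum, Finset.sum_mul]
  rw [Finset.sum_comm]
  exact Finset.sum_congr rfl fun i _ => Finset.sum_congr rfl fun n _ => by ring

theorem zf_sub (D : ℝ) (a a2 a' a2' : ℕ → ℂ) (j : ℕ) (t : ℝ) :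
    zf D (fun n => a n - a' n) (fun n => a2 n - a2' n) j t = zf D a a2 j t - zf D a' a2' j t := by
  unfold zf dp
  rw [← Finset.sum_sub_distrib]
  refine Finset.sum_congr rfl fun n _ => ?_
  rw [← sub_mul]
  congr 1
  unfold qb
  split_ifs <;> ring

/-! ### the penalty -/

theorem pw_cont (D κ : ℝ) (a a2 : ℕ → ℂ) (q : ℕ) : Continuous (pw D κ a a2 q) := by
  cases q with
  | zero => exact continuous_const
  | succ j => exact ((continuous_const.mul (zf_cont D a a2 j)).div_const _).pow _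

theorem pw_norm (D κ : ℝ) (a a2 : ℕ → ℂ) (j : ℕ) (t : ℝ) :
    ‖pw D κ a a2 (j + 1) t‖ = (20 * ‖zf D a a2 j t‖ / R9 κ j) ^ s7 j := by
  show ‖(20 * zf D a a2 j t / (R9 κ j : ℂ)) ^ s7 j‖ = _
  rw [norm_pow, norm_div, norm_mul, Complex.norm_natCast]
  norm_num

theorem geo_sum (q J : ℕ) (h : q ≤ J) : ∑ j ∈ Finset.Ico q J, Real.exp (-(2 * (j : ℝ))) ≤
    2 * (Real.exp (-(2 * (q : ℝ))) - Real.exp (-(2 * (J : ℝ)))) := by
  induction J, h using Nat.le_induction with
  | base => simp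
  | succ J hJ ih =>
    rw [Finset.sum_Ico_succ_top hJ]
    have h1 : Real.exp (-(2 * ((J + 1 : ℕ) : ℝ))) ≤ Real.exp (-(2 * (J : ℝ))) * (1 / 4) := by
      have e : -(2 * ((J + 1 : ℕ) : ℝ)) = -(2 * (J : ℝ)) + (-2) := by push_cast; ring
      rw [e, Real.exp_add]
      refine mul_le_mul_of_nonneg_left ?_ (Real.exp_pos _).le
      rw [Real.exp_neg, one_div]
      refine inv_anti₀ (by norm_num) ?_
      have h2 := Real.add_one_le_exp 1
      have h3 : Real.exp 2 = Real.exp 1 * Real.exp 1 := by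
        rw [← Real.exp_add]
        norm_num
      rw [h3]
      nlinarith
    have h2 := Real.exp_pos (-(2 * (J : ℝ)))
    linarith

theorem JB_le {D : ℝ} (hD : 1 ≤ D) : Real.exp ((JB D : ℝ) / 2) ≤ 3 * Real.sqrt D := by
  have h1 : (JB D : ℝ) ≤ Real.log (2 * D) + 1 :=
    (Nat.ceil_lt_add_one (Real.log_nonneg (by linarith))).le
  have h2 : Real.exp (JB D : ℝ) ≤ 9 * D := by
    calc Real.exp (JB D : ℝ) ≤ Real.exp (Real.log (2 * D) + 1) := Real.exp_le_exp.2 h1
      _ = 2 * D * Real.exp 1 := by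
          rw [Real.exp_add, Real.exp_log (by linarith)]
      _ ≤ 2 * D * 3 := by
          have := Real.exp_one_lt_d9
          gcongr
          linarith
      _ ≤ 9 * D := by linarith
  have h3 : Real.exp ((JB D : ℝ) / 2) ^ 2 = Real.exp (JB D : ℝ) := by
    rw [← Real.exp_nat_mul]
    congr 1
    push_cast
    ring
  have h4 : Real.exp ((JB D : ℝ) / 2) ≤ Real.sqrt (9 * D) := by
    rw [Real.le_sqrt (Real.exp_pos _).le (by positivity), h3]
    exact h2
  have h5 : Real.sqrt (9 * D) = 3 * Real.sqrt D := by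
    rw [Real.sqrt_mul (by norm_num), show (9 : ℝ) = 3 ^ 2 by norm_num,
      Real.sqrt_sq (by norm_num)]
  rwa [h5] at h4

/-- one of the terms is bounded by the sum -/
theorem one_le_sum' {m : ℕ} (f : Fin m → ℝ) (hf : ∀ i, 0 ≤ f i) (i : Fin m) : f i ≤ ∑ i, f i :=
  Finset.single_le_sum (fun i _ => hf i) (Finset.mem_univ i)

theorem G_bd {E X Y P : ℝ} (hE : 0 ≤ E) (hX : 0 ≤ X) (hY : 0 ≤ Y) :
    E * X * Y * P ≤ E * X * (1 + P) * Y := by
  have h : E * X * (1 + P) * Y - E * X * Y * P = E * X * Y := by ring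
  have h1 : 0 ≤ E * X * Y := by positivity
  linarith

theorem G_bd0 {E X Y P : ℝ} (hE : 0 ≤ E) (hX : 0 ≤ X) (hP : 0 ≤ P) (hPY : P ≤ Y) :
    E * X * P ≤ E * X * (1 + P) * Y := by
  have h0 : 0 ≤ Y := hP.trans hPY
  have h : E * X * (1 + P) * Y = E * X * Y + E * X * P * Y := by ring
  have h1 : 0 ≤ E * X * P * Y := by positivity
  have h2 : E * X * P ≤ E * X * Y := mul_le_mul_of_nonneg_left hPY (by positivity)
  linarith

/-- the crude bound for the product of the truncated exponentials -/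
theorem Ef_crude (hTEX : S_TEX) {m : ℕ} {D κ : ℝ} (hκ : 4 ≤ κ) {k : Fin m → ℝ}
    {a a2 : Fin m → ℕ → ℂ} (hF : FamD k a a2) (i : Fin m) (q : ℕ) (t : ℝ) :
    ‖Ef D κ (fun n => lc k a n - a i n) (fun n => lc k a2 n - a2 i n) q t‖ ≤
      Real.exp (2 * ∑ i, ∑ l ∈ Finset.range (JB D + 1), ‖zf D (a i) (a2 i) l t‖) := by
  unfold Ef
  rw [norm_prod]
  have hk1 : ∀ i, k i ≤ 1 := fun i =>
    (one_le_sum' k hF.nn i).trans hF.sm
  have h1 : ∀ l, ‖TEx (R9 κ l) (zf D (fun n => lc k a n - a i n) (fun n => lc k a2 n - a2 i n) l t)‖ ≤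
      Real.exp (2 * ∑ i, ‖zf D (a i) (a2 i) l t‖) := by
    intro l
    have hR : 1 ≤ R9 κ l := by
      have h2 := R9_ge κ l
      have h3 : 0 < κ * Real.exp (9 / 10 * (l : ℝ)) := by positivity
      have h4 : (0 : ℝ) < R9 κ l := h3.trans_le h2
      exact_mod_cast h4
    refine ((hTEX (R9 κ l) _ hR).1).trans (Real.exp_le_exp.2 ?_)
    rw [zf_sub D (lc k a) (lc k a2) (a i) (a2 i), zf_lc]
    refine (norm_sub_le _ _).trans ?_
    have h5 : ‖∑ i, (k i : ℂ) * zf D (a i) (a2 i) l t‖ ≤ ∑ i, ‖zf D (a i) (a2 i) l t‖ := by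
      refine (norm_sum_le _ _).trans (Finset.sum_le_sum fun i _ => ?_)
      rw [norm_mul, Complex.norm_real, Real.norm_eq_abs, abs_of_nonneg (hF.nn i)]
      exact mul_le_of_le_one_left (norm_nonneg _) (hk1 i)
    have h6 := one_le_sum' (fun i => ‖zf D (a i) (a2 i) l t‖) (fun i => norm_nonneg _) i
    linarith
  calc ∏ l ∈ Finset.Ico q (JB D), ‖TEx (R9 κ l) (zf D (fun n => lc k a n - a i n)
        (fun n => lc k a2 n - a2 i n) l t)‖ ≤
      ∏ l ∈ Finset.Ico q (JB D), Real.exp (2 * ∑ i, ‖zf D (a i) (a2 i) l t‖) :=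
        Finset.prod_le_prod (fun l _ => norm_nonneg _) fun l _ => h1 l
    _ = Real.exp (∑ l ∈ Finset.Ico q (JB D), 2 * ∑ i, ‖zf D (a i) (a2 i) l t‖) :=
        (Real.exp_sum _ _).symm
    _ ≤ Real.exp (∑ l ∈ Finset.range (JB D + 1), 2 * ∑ i, ‖zf D (a i) (a2 i) l t‖) := by
        rw [Real.exp_le_exp]
        refine Finset.sum_le_sum_of_subset_of_nonneg ?_ fun l _ _ => by positivity
        intro l hl
        rw [Finset.mem_Ico] at hl
        rw [Finset.mem_range]
        omega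
    _ = _ := by
        rw [← Finset.mul_sum, Finset.sum_comm]

theorem t_TOR : J_TOR := by
  intro hTEX hPT1 _ hPMT hXM hJL hSTR _ hMVL m
  obtain ⟨C₂, hC₂, hPMT⟩ := hPMT
  obtain ⟨κJ, hκJ4, hJL⟩ := hJL m
  obtain ⟨κS, hκS4, hSTR⟩ := hSTR m
  refine ⟨max (max κJ κS) (11600 * C₂ * Real.exp 1),
    hκJ4.trans ((le_max_left _ _).trans (le_max_left _ _)), fun κ hκ => ?_⟩
  have hκJ : κJ ≤ κ := (le_max_left _ _).trans ((le_max_left _ _).trans hκ)
  have hκS : κS ≤ κ := (le_max_right _ _).trans ((le_max_left _ _).trans hκ)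
  have hκ4 : 4 ≤ κ := hκJ4.trans hκJ
  have hκe : 11600 * C₂ * Real.exp 1 ≤ κ := (le_max_right _ _).trans hκ
  obtain ⟨CJ, hCJ, hJL⟩ := hJL κ hκJ
  obtain ⟨CS, hCS, hSTR⟩ := hSTR κ hκS
  obtain ⟨CP, hCP, hPT1⟩ := hPT1 m κ hκ4
  obtain ⟨C₁, hC₁, hXM⟩ := hXM (26 * κ + 5) 8 1 m (by linarith) (by norm_num) le_rfl
  have he2 : 0 < Real.exp 2 := Real.exp_pos 2
  obtain ⟨C, hC⟩ : ∃ C : ℝ, C = CP * (1 + CS * (Real.exp 2 + 2)) + CS * Real.exp 2 +
      (3 * C₁ + 3 * CJ + 3) := ⟨_, rfl⟩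
  have hCP0 : 0 < CP := by linarith
  have hCS0 : 0 < CS := by linarith
  have hCa0 : 0 < CP * (1 + CS * (Real.exp 2 + 2)) := by positivity
  have hCb0 : 0 < CS * Real.exp 2 := by positivity
  refine ⟨C, by rw [hC]; linarith, ?_⟩
  intro D hD k a a2 hF N b hN1 hND hb W hW i₀ i' q hq
  have hW0 : 0 ≤ W := MB.nonneg (fun t => by positivity) hW
  have hBc := dp_cont N b
  have hzc : ∀ (i : Fin m) (l : ℕ), Continuous (zf D (a i) (a2 i) l) := fun i l => zf_cont _ _ _ _
  have hSc : ∀ n : ℕ, Continuous fun t => ∑ i, ∑ l ∈ Finset.range n, ‖zf D (a i) (a2 i) l t‖ :=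
    fun n => continuous_finsetSum _ fun i _ => continuous_finsetSum _ fun l _ => (hzc i l).norm
  -- the integrand of STR
  obtain ⟨G, hG⟩ : ∃ G : ℕ → ℕ → ℝ → ℝ, G = fun j' j t =>
      ‖Ef D κ (lc k a) (lc k a2) (j + 1) t * dp N b t‖ ^ 2 *
        Real.exp (6 * ∑ i, ∑ l ∈ Finset.range (j + 1), ‖zf D (a i) (a2 i) l t‖) *
        (1 + (20 * ‖zf D (a i') (a2 i') j' t‖ / R9 κ j') ^ (2 * s7 j')) *
        ∑ i, (20 * ‖zf D (a i) (a2 i) j t‖ / R9 κ j) ^ (2 * s7 j) := ⟨_, rfl⟩
  have hGc : ∀ j' j, Continuous (G j' j) := by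
    intro j' j
    rw [hG]
    refine Continuous.mul (Continuous.mul (Continuous.mul
      (((Ef_cont _ _ _ _ _).mul hBc).norm.pow 2) ?_) ?_) ?_
    · exact Real.continuous_exp.comp (continuous_const.mul (hSc _))
    · exact continuous_const.add (((continuous_const.mul (hzc i' j').norm).div_const _).pow _)
    · exact continuous_finsetSum _ fun i _ =>
        ((continuous_const.mul (hzc i j).norm).div_const _).pow _
  have hGM : ∀ j' j, j' ≤ j → MB (G j' j) (CS * Real.exp (-(2 * (j : ℝ))) * W) := by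
    intro j' j hj
    rw [hG]
    exact hSTR D hD k a a2 hF N b hN1 hND hb W hW j' j i' hj
  have hG0 : ∀ j' j t, 0 ≤ G j' j t := by
    intro j' j t
    rw [hG]
    positivity
  -- (second)
  have second : MB (fun t => ‖Ef D κ (lc k a) (lc k a2) q t * pw D κ (a i') (a2 i') q t *
      dp N b t‖ ^ 2) ((1 + CS * Real.exp 2) * Real.exp (-(2 * (q : ℝ))) * W) := by
    cases q with
    | zero =>
      refine MB.le ?_ (MB.congr (G := fun t => ‖Ef D κ (lc k a) (lc k a2) 0 t *
        pw D κ (a i') (a2 i') 0 t * dp N b t‖ ^ 2) (fun t => by simp [pw]) hW)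
      have : 0 ≤ CS * Real.exp 2 * W := by positivity
      simp only [Nat.cast_zero, mul_zero, neg_zero, Real.exp_zero, mul_one]
      linarith
    | succ q' =>
      refine MB.le (C := CS * Real.exp (-(2 * (q' : ℝ))) * W) ?_
        (MB.mono (G := G q' q') ?_ (hGc _ _) (fun t => ?_) (hGM q' q' le_rfl))
      · have e : Real.exp (-(2 * (q' : ℝ))) = Real.exp 2 * Real.exp (-(2 * ((q' + 1 : ℕ) : ℝ))) := by
          rw [← Real.exp_add]
          congr 1
          push_cast
          ring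
        rw [e]
        have : 0 ≤ Real.exp (-(2 * ((q' + 1 : ℕ) : ℝ))) * W := by positivity
        nlinarith
      · exact (((Ef_cont _ _ _ _ _).mul (pw_cont _ _ _ _ _)).mul hBc).norm.pow 2
      · rw [hG]
        simp only
        have e1 : ‖Ef D κ (lc k a) (lc k a2) (q' + 1) t * pw D κ (a i') (a2 i') (q' + 1) t *
            dp N b t‖ ^ 2 = ‖Ef D κ (lc k a) (lc k a2) (q' + 1) t * dp N b t‖ ^ 2 * 1 * 1 *
              (20 * ‖zf D (a i') (a2 i') q' t‖ / R9 κ q') ^ (2 * s7 q') := by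
          rw [norm_mul, norm_mul, pw_norm, norm_mul, mul_comm 2 (s7 q'), pow_mul]
          ring
        rw [e1]
        have h1 : 1 ≤ Real.exp (6 * ∑ i, ∑ l ∈ Finset.range (q' + 1), ‖zf D (a i) (a2 i) l t‖) :=
          Real.one_le_exp (by positivity)
        have h2 : 1 ≤ 1 + (20 * ‖zf D (a i') (a2 i') q' t‖ / R9 κ q') ^ (2 * s7 q') := by
          have : 0 ≤ (20 * ‖zf D (a i') (a2 i') q' t‖ / R9 κ q') ^ (2 * s7 q') := by positivity
          linarith
        have h3 := one_le_sum' (fun i => (20 * ‖zf D (a i) (a2 i) q' t‖ / R9 κ q') ^ (2 * s7 q'))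
          (fun i => by positivity) i'
        gcongr
  -- (first)
  have first : MB (fun t => ‖cexp (∑ l ∈ Finset.range (JB D), zf D (a i₀) (a2 i₀) l t)‖ ^ 2 *
        ‖Ef D κ (fun n => lc k a n - a i₀ n) (fun n => lc k a2 n - a2 i₀ n) q t *
          pw D κ (a i') (a2 i') q t * dp N b t‖ ^ 2)
        (CP * (1 + CS * (Real.exp 2 + 2)) * Real.exp (-(2 * (q : ℝ))) * W) := by
    have hFc : Continuous (fun t => ‖cexp (∑ l ∈ Finset.range (JB D), zf D (a i₀) (a2 i₀) l t)‖ ^ 2 *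
        ‖Ef D κ (fun n => lc k a n - a i₀ n) (fun n => lc k a2 n - a2 i₀ n) q t *
          pw D κ (a i') (a2 i') q t * dp N b t‖ ^ 2) := by
      refine Continuous.mul ?_ ((((Ef_cont _ _ _ _ _).mul (pw_cont _ _ _ _ _)).mul hBc).norm.pow 2)
      exact ((Complex.continuous_exp.comp (continuous_finsetSum _ fun l _ => hzc i₀ l)).norm).pow 2
    have hP : ∀ t, ‖cexp (∑ l ∈ Finset.range (JB D), zf D (a i₀) (a2 i₀) l t)‖ ^ 2 *
        ‖Ef D κ (fun n => lc k a n - a i₀ n) (fun n => lc k a2 n - a2 i₀ n) q t *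
          pw D κ (a i') (a2 i') q t * dp N b t‖ ^ 2 ≤
        CP * (‖Ef D κ (lc k a) (lc k a2) q t * dp N b t‖ ^ 2 *
          Real.exp (6 * ∑ i, ∑ l ∈ Finset.range q, ‖zf D (a i) (a2 i) l t‖) *
          ‖pw D κ (a i') (a2 i') q t‖ ^ 2 +
          ∑ j ∈ Finset.Ico q (JB D), ‖Ef D κ (lc k a) (lc k a2) (j + 1) t * dp N b t‖ ^ 2 *
            Real.exp (6 * ∑ i, ∑ l ∈ Finset.range (j + 1), ‖zf D (a i) (a2 i) l t‖) *
            (∑ i, (20 * ‖zf D (a i) (a2 i) j t‖ / R9 κ j) ^ (2 * s7 j)) *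
            ‖pw D κ (a i') (a2 i') q t‖ ^ 2) := by
      intro t
      have h := hPT1 (JB D) k (fun i l => zf D (a i) (a2 i) l t) hF.nn hF.sm i₀ q hq
      have e1 : (∏ l ∈ Finset.Ico q (JB D), TEx (R9 κ l) ((∑ i, (k i : ℂ) * zf D (a i) (a2 i) l t) -
          zf D (a i₀) (a2 i₀) l t)) =
          Ef D κ (fun n => lc k a n - a i₀ n) (fun n => lc k a2 n - a2 i₀ n) q t := by
        unfold Ef
        refine Finset.prod_congr rfl fun l _ => ?_
        rw [zf_sub D (lc k a) (lc k a2) (a i₀) (a2 i₀), zf_lc]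
      have e2 : ∀ n, (∏ l ∈ Finset.Ico n (JB D), TEx (R9 κ l)
          (∑ i, (k i : ℂ) * zf D (a i) (a2 i) l t)) = Ef D κ (lc k a) (lc k a2) n t := by
        intro n
        unfold Ef
        refine Finset.prod_congr rfl fun l _ => ?_
        rw [zf_lc]
      simp only [e1, e2] at h
      have h2 := mul_le_mul_of_nonneg_right h
        (show 0 ≤ ‖pw D κ (a i') (a2 i') q t‖ ^ 2 * ‖dp N b t‖ ^ 2 by positivity)
      refine le_trans (le_of_eq ?_) (h2.trans (le_of_eq ?_))
      · rw [norm_mul, norm_mul]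
        ring
      · rw [mul_assoc CP, add_mul, Finset.sum_mul]
        congr 2
        · rw [norm_mul]
          ring
        · refine Finset.sum_congr rfl fun j _ => ?_
          rw [norm_mul]
          ring
    cases q with
    | zero =>
      have hR : MB (fun t => CP * (‖Ef D κ (lc k a) (lc k a2) 0 t * dp N b t‖ ^ 2 +
          ∑ j ∈ Finset.Ico 0 (JB D), G j j t))
          (CP * (W + ∑ j ∈ Finset.Ico 0 (JB D), CS * Real.exp (-(2 * (j : ℝ))) * W)) :=
        MB.cmul hCP0.le (MB.add (((Ef_cont _ _ _ _ _).mul hBc).norm.pow 2)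
          (continuous_finsetSum _ fun j _ => hGc j j) hW
          (MB.sum _ (fun j _ => hGc j j) fun j _ => hGM j j le_rfl))
      refine MB.le ?_ (MB.mono hFc ?_ (fun t => ?_) hR)
      · rw [← Finset.sum_mul, ← Finset.mul_sum]
        have h1 := geo_sum 0 (JB D) (Nat.zero_le _)
        have h2 := Real.exp_pos (-(2 * (JB D : ℝ)))
        simp only [Nat.cast_zero, mul_zero, neg_zero, Real.exp_zero] at h1 ⊢
        have h3 : ∑ j ∈ Finset.Ico 0 (JB D), Real.exp (-(2 * (j : ℝ))) ≤ 2 := by linarith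
        have h4 : CS * (∑ j ∈ Finset.Ico 0 (JB D), Real.exp (-(2 * (j : ℝ)))) * W ≤ CS * 2 * W := by
          gcongr
        have h5 : 0 ≤ CP * (CS * Real.exp 2 * W) := by positivity
        have h6 : CP * (W + CS * (∑ j ∈ Finset.Ico 0 (JB D), Real.exp (-(2 * (j : ℝ)))) * W) ≤
            CP * (W + CS * 2 * W) := by gcongr
        have h7 : CP * (1 + CS * (Real.exp 2 + 2)) * 1 * W =
            CP * (W + CS * 2 * W) + CP * (CS * Real.exp 2 * W) := by ring
        rw [h7]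
        linarith
      · exact continuous_const.mul ((((Ef_cont _ _ _ _ _).mul hBc).norm.pow 2).add
          (continuous_finsetSum _ fun j _ => hGc j j))
      · refine (hP t).trans (mul_le_mul_of_nonneg_left (add_le_add (le_of_eq ?_)
          (Finset.sum_le_sum fun j _ => ?_)) hCP0.le)
        · simp [pw]
        · rw [hG]
          simp only [pw, norm_one, one_pow, mul_one]
          have h2 : 1 ≤ 1 + (20 * ‖zf D (a i') (a2 i') j t‖ / R9 κ j) ^ (2 * s7 j) := by
            have : 0 ≤ (20 * ‖zf D (a i') (a2 i') j t‖ / R9 κ j) ^ (2 * s7 j) := by positivity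
            linarith
          refine mul_le_mul_of_nonneg_right ?_ (by positivity)
          exact le_mul_of_one_le_right (by positivity) h2
    | succ q' =>
      have hR : MB (fun t => CP * (G q' q' t + ∑ j ∈ Finset.Ico (q' + 1) (JB D), G q' j t))
          (CP * (CS * Real.exp (-(2 * (q' : ℝ))) * W +
            ∑ j ∈ Finset.Ico (q' + 1) (JB D), CS * Real.exp (-(2 * (j : ℝ))) * W)) :=
        MB.cmul hCP0.le (MB.add (hGc _ _) (continuous_finsetSum _ fun j _ => hGc q' j)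
          (hGM q' q' le_rfl) (MB.sum _ (fun j _ => hGc q' j) fun j hj => hGM q' j (by
            rw [Finset.mem_Ico] at hj
            omega)))
      have hpw : ‖(1 : ℝ)‖ = 1 := norm_one
      refine MB.le ?_ (MB.mono hFc ?_ (fun t => ?_) hR)
      · rw [← Finset.sum_mul, ← Finset.mul_sum]
        have h1 := geo_sum (q' + 1) (JB D) hq
        have h2 := Real.exp_pos (-(2 * (JB D : ℝ)))
        have e : Real.exp (-(2 * (q' : ℝ))) = Real.exp 2 * Real.exp (-(2 * ((q' + 1 : ℕ) : ℝ))) := by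
          rw [← Real.exp_add]
          congr 1
          push_cast
          ring
        rw [e]
        have h3 : ∑ j ∈ Finset.Ico (q' + 1) (JB D), Real.exp (-(2 * (j : ℝ))) ≤
            2 * Real.exp (-(2 * ((q' + 1 : ℕ) : ℝ))) := by linarith
        have h4 : CS * (∑ j ∈ Finset.Ico (q' + 1) (JB D), Real.exp (-(2 * (j : ℝ)))) * W ≤
            CS * (2 * Real.exp (-(2 * ((q' + 1 : ℕ) : ℝ)))) * W := by gcongr
        have h5 : 0 ≤ CP * (Real.exp (-(2 * ((q' + 1 : ℕ) : ℝ))) * W) := by positivity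
        calc CP * (CS * (Real.exp 2 * Real.exp (-(2 * ((q' + 1 : ℕ) : ℝ)))) * W +
              CS * (∑ j ∈ Finset.Ico (q' + 1) (JB D), Real.exp (-(2 * (j : ℝ)))) * W) ≤
            CP * (CS * (Real.exp 2 * Real.exp (-(2 * ((q' + 1 : ℕ) : ℝ)))) * W +
              CS * (2 * Real.exp (-(2 * ((q' + 1 : ℕ) : ℝ)))) * W) := by gcongr
          _ ≤ CP * (CS * (Real.exp 2 * Real.exp (-(2 * ((q' + 1 : ℕ) : ℝ)))) * W +
              CS * (2 * Real.exp (-(2 * ((q' + 1 : ℕ) : ℝ)))) * W) +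
              CP * (Real.exp (-(2 * ((q' + 1 : ℕ) : ℝ))) * W) := by linarith
          _ = _ := by ring
      · exact continuous_const.mul ((hGc _ _).add (continuous_finsetSum _ fun j _ => hGc q' j))
      · have epw : ‖pw D κ (a i') (a2 i') (q' + 1) t‖ ^ 2 =
            (20 * ‖zf D (a i') (a2 i') q' t‖ / R9 κ q') ^ (2 * s7 q') := by
          rw [pw_norm, mul_comm 2 (s7 q'), pow_mul]
        refine (hP t).trans (mul_le_mul_of_nonneg_left (add_le_add ?_
          (Finset.sum_le_sum fun j _ => ?_)) hCP0.le)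
        · rw [hG, epw]
          exact G_bd0 (sq_nonneg _) (Real.exp_pos _).le (pow_nonneg (by positivity) _)
            (one_le_sum' (fun i => (20 * ‖zf D (a i) (a2 i) q' t‖ / R9 κ q') ^ (2 * s7 q'))
              (fun i => pow_nonneg (by positivity) _) i')
        · rw [hG, epw]
          exact G_bd (sq_nonneg _) (Real.exp_pos _).le
            (Finset.sum_nonneg fun i _ => pow_nonneg (by positivity) _)
  -- (third)
  have third : MB (fun t => ‖Ef D κ (fun n => lc k a n - a i₀ n) (fun n => lc k a2 n - a2 i₀ n) q t *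
      pw D κ (a i') (a2 i') q t * dp N b t‖ ^ 2) (Real.exp ((3 * C₁ + 3 * CJ + 3) * Real.sqrt D) * W) := by
    have hDs : 1 ≤ Real.sqrt D := Real.one_le_sqrt.2 hD
    have hJB := JB_le hD
    have hNn := N2_nn N b
    have hNN : N2 N b ≤ 2 * (Real.exp (CJ * (3 * Real.sqrt D)) * W) := by
      have h1 := hJL D hD k a a2 hF N b hN1 hND hb W hW (JB D)
      have h2 := MB.congr (G := fun t => ‖dp N b t‖ ^ 2) (fun t => by
        have : Ef D κ (lc k a) (lc k a2) (JB D + 1) t = 1 := by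
          unfold Ef
          rw [Finset.Ico_eq_empty (by omega), Finset.prod_empty]
        rw [this, one_mul]) h1
      refine (N2_le hMVL h2).trans ?_
      gcongr
    have hx := hXM D hD a a2 hF.b1 hF.b2 N b hN1 (by
      have : 1 * D ≤ (26 * κ + 5) * D := by gcongr; linarith
      linarith) hb (JB D)
    have hp4 : MB (fun t => ‖dp N b t‖ ^ 2 * ‖pw D κ (a i') (a2 i') q t‖ ^ 4) (2 * N2 N b) := by
      cases q with
      | zero =>
        refine MB.congr (fun t => ?_) (MB_dp hMVL N b)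
        simp [pw]
      | succ q' =>
        have h1 := blk hC₂ hPMT hκe hκ4 hD (hF.b1 i') (hF.b2 i') hN1 (by
          have : 1 * D ≤ (26 * κ + 5) * D := by gcongr; linarith
          linarith) hb (j := q') (r := 2 * s7 q') (by omega)
        refine MB.le ?_ (MB.congr (G := fun t => ‖dp N b t‖ ^ 2 *
          ‖pw D κ (a i') (a2 i') (q' + 1) t‖ ^ 4) (fun t => ?_) h1)
        · have h2 : Real.exp (-(1 + 8 / 10 * (q' : ℝ))) ^ (2 * s7 q') ≤ 1 := by
            refine pow_le_one₀ (Real.exp_pos _).le ?_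
            rw [Real.exp_le_one_iff]
            have : (0 : ℝ) ≤ q' := Nat.cast_nonneg _
            linarith
          have h3 := mul_le_mul_of_nonneg_right h2 (show 0 ≤ 2 * N2 N b by linarith)
          linarith
        · rw [pw_norm, ← pow_mul]
          congr 2
          ring
    have c1 : Continuous fun t => ‖dp N b t‖ ^ 2 *
        Real.exp (8 * ∑ i, ∑ l ∈ Finset.range (JB D + 1), ‖zf D (a i) (a2 i) l t‖) :=
      (hBc.norm.pow 2).mul (Real.continuous_exp.comp (continuous_const.mul (hSc _)))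
    have c2 : Continuous fun t => ‖dp N b t‖ ^ 2 * ‖pw D κ (a i') (a2 i') q t‖ ^ 4 :=
      (hBc.norm.pow 2).mul ((pw_cont _ _ _ _ _).norm.pow 4)
    refine MB.le ?_ (MB.mono ?_ (c1.add c2) (fun t => ?_) (MB.add c1 c2 hx hp4))
    · have h1 : Real.exp (C₁ * Real.exp ((JB D : ℝ) / 2)) ≤ Real.exp (C₁ * (3 * Real.sqrt D)) := by
        rw [Real.exp_le_exp]
        gcongr
      have h2 : 8 ≤ Real.exp (3 * Real.sqrt D) := by
        have h3 : Real.exp 3 ≤ Real.exp (3 * Real.sqrt D) := by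
          rw [Real.exp_le_exp]
          linarith
        have h4 := Real.add_one_le_exp 1
        have h5 : Real.exp 3 = Real.exp 1 ^ 3 := by
          rw [← Real.exp_nat_mul]
          norm_num
        have h6 : (2 : ℝ) ^ 3 ≤ Real.exp 1 ^ 3 := by
          gcongr
          linarith
        linarith
      have h3 : 1 ≤ Real.exp (C₁ * (3 * Real.sqrt D)) := Real.one_le_exp (by positivity)
      calc Real.exp (C₁ * Real.exp ((JB D : ℝ) / 2)) * N2 N b + 2 * N2 N b ≤
          Real.exp (C₁ * (3 * Real.sqrt D)) * N2 N b +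
            2 * Real.exp (C₁ * (3 * Real.sqrt D)) * N2 N b := by
            gcongr
            linarith
        _ = 3 * Real.exp (C₁ * (3 * Real.sqrt D)) * N2 N b := by ring
        _ ≤ 3 * Real.exp (C₁ * (3 * Real.sqrt D)) *
            (2 * (Real.exp (CJ * (3 * Real.sqrt D)) * W)) := by gcongr
        _ = 6 * (Real.exp (C₁ * (3 * Real.sqrt D)) * Real.exp (CJ * (3 * Real.sqrt D)) * W) := by ring
        _ ≤ Real.exp (3 * Real.sqrt D) *
            (Real.exp (C₁ * (3 * Real.sqrt D)) * Real.exp (CJ * (3 * Real.sqrt D)) * W) := by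
            gcongr
            linarith
        _ = Real.exp ((3 * C₁ + 3 * CJ + 3) * Real.sqrt D) * W := by
            rw [← Real.exp_add, ← mul_assoc, ← Real.exp_add]
            congr 2
            ring
    · exact (((Ef_cont _ _ _ _ _).mul (pw_cont _ _ _ _ _)).mul hBc).norm.pow 2
    · have h1 := Ef_crude hTEX (D := D) hκ4 hF i₀ q t
      obtain ⟨S, hS⟩ : ∃ S : ℝ, S = ∑ i, ∑ l ∈ Finset.range (JB D + 1), ‖zf D (a i) (a2 i) l t‖ :=
        ⟨_, rfl⟩
      rw [← hS] at h1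
      show ‖Ef D κ (fun n => lc k a n - a i₀ n) (fun n => lc k a2 n - a2 i₀ n) q t *
        pw D κ (a i') (a2 i') q t * dp N b t‖ ^ 2 ≤
        ‖dp N b t‖ ^ 2 * Real.exp (8 * ∑ i, ∑ l ∈ Finset.range (JB D + 1),
          ‖zf D (a i) (a2 i) l t‖) + ‖dp N b t‖ ^ 2 * ‖pw D κ (a i') (a2 i') q t‖ ^ 4
      rw [← hS, norm_mul, norm_mul]
      have h2 : ‖Ef D κ (fun n => lc k a n - a i₀ n) (fun n => lc k a2 n - a2 i₀ n) q t‖ ^ 2 ≤
          Real.exp (4 * S) := by
        have h3 := pow_le_pow_left₀ (norm_nonneg _) h1 2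
        rw [← Real.exp_nat_mul] at h3
        refine h3.trans (le_of_eq ?_)
        congr 1
        push_cast
        ring
      have h4 : Real.exp (8 * S) = Real.exp (4 * S) ^ 2 := by
        rw [← Real.exp_nat_mul]
        congr 1
        push_cast
        ring
      rw [h4]
      obtain ⟨x, hx⟩ : ∃ x : ℝ, x = ‖pw D κ (a i') (a2 i') q t‖ := ⟨_, rfl⟩
      rw [← hx]
      have h5 : Real.exp (4 * S) * x ^ 2 ≤ Real.exp (4 * S) ^ 2 + x ^ 4 := by
        nlinarith [sq_nonneg (Real.exp (4 * S) - x ^ 2), sq_nonneg (Real.exp (4 * S)),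
          sq_nonneg (x ^ 2)]
      have h6 : 0 ≤ ‖dp N b t‖ ^ 2 := by positivity
      calc (‖Ef D κ (fun n => lc k a n - a i₀ n) (fun n => lc k a2 n - a2 i₀ n) q t‖ * x *
            ‖dp N b t‖) ^ 2 =
          ‖Ef D κ (fun n => lc k a n - a i₀ n) (fun n => lc k a2 n - a2 i₀ n) q t‖ ^ 2 * x ^ 2 *
            ‖dp N b t‖ ^ 2 := by ring
        _ ≤ Real.exp (4 * S) * x ^ 2 * ‖dp N b t‖ ^ 2 := by gcongr
        _ ≤ (Real.exp (4 * S) ^ 2 + x ^ 4) * ‖dp N b t‖ ^ 2 := by gcongr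
        _ = _ := by ring
  have hE0 : 0 ≤ Real.exp (-(2 * (q : ℝ))) * W := by positivity
  refine ⟨MB.le ?_ first, MB.le ?_ second, MB.le ?_ third⟩
  · have h1 : CP * (1 + CS * (Real.exp 2 + 2)) ≤ C := by rw [hC]; linarith
    calc CP * (1 + CS * (Real.exp 2 + 2)) * Real.exp (-(2 * (q : ℝ))) * W =
        CP * (1 + CS * (Real.exp 2 + 2)) * (Real.exp (-(2 * (q : ℝ))) * W) := by ring
      _ ≤ C * (Real.exp (-(2 * (q : ℝ))) * W) := mul_le_mul_of_nonneg_right h1 hE0
      _ = C * Real.exp (-(2 * (q : ℝ))) * W := by ring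
  · have h0 : 1 ≤ CP * (1 + CS * (Real.exp 2 + 2)) :=
      one_le_mul_of_one_le_of_one_le hCP (by
        have : 0 ≤ CS * (Real.exp 2 + 2) := by positivity
        linarith)
    have h1 : 1 + CS * Real.exp 2 ≤ C := by rw [hC]; linarith
    calc (1 + CS * Real.exp 2) * Real.exp (-(2 * (q : ℝ))) * W =
        (1 + CS * Real.exp 2) * (Real.exp (-(2 * (q : ℝ))) * W) := by ring
      _ ≤ C * (Real.exp (-(2 * (q : ℝ))) * W) := mul_le_mul_of_nonneg_right h1 hE0
      _ = C * Real.exp (-(2 * (q : ℝ))) * W := by ring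
  · refine mul_le_mul_of_nonneg_right ?_ hW0
    rw [Real.exp_le_exp]
    refine mul_le_mul_of_nonneg_right ?_ (Real.sqrt_nonneg _)
    rw [hC]
    linarith

end

end Pool.Agent.Q176.UM
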