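import Pool.Agent.Q97.UM.Stm13
import Pool.Agent.Q61.UM.SAMPb
import Pool.Agent.Q176.UM.PAIR

/-!
# Project UM6 (helper97), job UGB: the bad zeros carry a positive proportion of the mass
-/

set_option autoImplicit false

namespace Pool.Agent.Q176.UM

open Pool.Agent.Q97.UM Pool.Agent.Q61.UM MeasureTheory Complex Filter Topology

noncomputable section

/-! ### pointwise bounds -/

theorem one_le_pow_self {x : ℝ} (hx : 1 ≤ x) {K : ℕ} (hK : 2 ≤ K) : x ≤ x ^ K := by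
  calc x = x ^ 1 := (pow_one x).symm
    _ ≤ x ^ K := pow_le_pow_right₀ hx (by omega)

theorem om_bd {δ H C : ℝ} {K : ℕ} {w : ℝ → ℝ} (hδ : 0 < δ) (hH : 1 ≤ H) (hC : 1 ≤ C) (hK : 2 ≤ K)
    (hw : OmW δ H C K w) (z : ℂ) :
    ‖om w z‖ ≤ 2 * C * (1 + H) * Real.exp (δ * |z.im|) / (1 + |z.re|) := by
  have he : 1 ≤ Real.exp (δ * |z.im|) := Real.one_le_exp (by positivity)
  have h0 : 0 ≤ |z.re| := abs_nonneg _
  have hCe : 0 < C * Real.exp (δ * |z.im|) := by positivity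
  have hCe1 : 1 ≤ C * Real.exp (δ * |z.im|) := one_le_mul_of_one_le_of_one_le hC he
  rcases le_total |z.re| H with h | h
  · have h1 := hw.near z h
    have h2 : 1 ≤ (1 + (H - |z.re|)) ^ K := one_le_pow₀ (by linarith)
    have h3 : C * Real.exp (δ * |z.im|) / (1 + (H - |z.re|)) ^ K ≤ C * Real.exp (δ * |z.im|) :=
      div_le_self hCe.le h2
    have h4 : ‖om w z‖ ≤ ‖om w z - 1‖ + 1 := by
      have := norm_add_le (om w z - 1) 1
      simpa using this
    have h5 : ‖om w z‖ ≤ 2 * (C * Real.exp (δ * |z.im|)) := by linarith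
    refine h5.trans ?_
    rw [le_div_iff₀ (by positivity)]
    calc 2 * (C * Real.exp (δ * |z.im|)) * (1 + |z.re|) ≤
        2 * (C * Real.exp (δ * |z.im|)) * (1 + H) := by gcongr
      _ = 2 * C * (1 + H) * Real.exp (δ * |z.im|) := by ring
  · have h1 := hw.far z h
    have h2 : 1 + (|z.re| - H) ≤ (1 + (|z.re| - H)) ^ K := one_le_pow_self (by linarith) hK
    have h3 : 0 < 1 + (|z.re| - H) := by linarith
    have h4 : C * Real.exp (δ * |z.im|) / (1 + (|z.re| - H)) ^ K ≤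
        C * Real.exp (δ * |z.im|) / (1 + (|z.re| - H)) :=
      div_le_div_of_nonneg_left hCe.le h3 h2
    refine (h1.trans h4).trans ?_
    rw [div_le_div_iff₀ h3 (by positivity)]
    have h5 : 1 + |z.re| ≤ (1 + H) * (1 + (|z.re| - H)) := by nlinarith
    calc C * Real.exp (δ * |z.im|) * (1 + |z.re|) ≤
        C * Real.exp (δ * |z.im|) * ((1 + H) * (1 + (|z.re| - H))) := by gcongr
      _ ≤ 2 * (C * Real.exp (δ * |z.im|) * ((1 + H) * (1 + (|z.re| - H)))) := by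
          have : 0 ≤ C * Real.exp (δ * |z.im|) * ((1 + H) * (1 + (|z.re| - H))) := by positivity
          linarith
      _ = 2 * C * (1 + H) * Real.exp (δ * |z.im|) * (1 + (|z.re| - H)) := by ring

theorem ZT_sub {T : ℝ} (hT : 16 ≤ T) : ZT T ⊆ ZD T := by
  have hF := H370.good_zeta
  intro s hs
  unfold ZT at hs
  unfold ZD
  rw [H370.mem_Zf hF (by linarith)] at hs ⊢
  obtain ⟨a1, a2, a3, a4, a5⟩ := hs
  exact ⟨a1, a2, by linarith, by linarith, a5⟩

theorem SS_term_nonneg {T : ℝ} (δ t : ℝ) (s : ℂ) :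
    0 ≤ (mz s : ℝ) * (Real.exp (2 * δ * (Real.log T * |s.re - 1 / 2|)) /
      (1 + Real.log T * |s.im - t|) ^ 2) := by positivity

theorem SS_nonneg (δ T t : ℝ) : 0 ≤ SS δ T t := Finset.sum_nonneg fun s _ => SS_term_nonneg δ t s

theorem SS_cont (δ : ℝ) {T : ℝ} (hT : 1 ≤ T) : Continuous (SS δ T) := by
  unfold SS
  refine continuous_finsetSum _ fun s _ => continuous_const.mul (continuous_const.div ?_ ?_)
  · fun_prop
  · intro t
    have := Real.log_nonneg hT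
    positivity

/-- the local zero sum is bounded by the sum `SS` -/
theorem Zt_le {δ H C : ℝ} {K : ℕ} {w : ℝ → ℝ} (hδ : 0 < δ) (hH : 1 ≤ H) (hC : 1 ≤ C) (hK : 2 ≤ K)
    (hw : OmW δ H C K w) {α T : ℝ} (hα : 0 ≤ α) (hT : 16 ≤ T) (t : ℝ) :
    ‖Zt w T (α * Real.log T) t‖ ≤
      ((2 * C * (1 + H)) ^ 2 * Real.exp 1) * SS ((α + 2 * δ) / 2) T t := by
  have hL : 0 ≤ Real.log T := Real.log_nonneg (by linarith)
  unfold Zt SS
  refine (norm_sum_le _ _).trans ?_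
  rw [Finset.mul_sum]
  refine le_trans (Finset.sum_le_sum fun s hs => ?_)
    (Finset.sum_le_sum_of_subset_of_nonneg (ZT_sub hT) fun s _ _ =>
      mul_nonneg (by positivity) (SS_term_nonneg _ t s))
  have hF := H370.good_zeta
  have hs' := hs
  unfold ZT at hs'
  rw [H370.mem_Zf hF (by linarith)] at hs'
  obtain ⟨a1, a2, a3, a4, a5⟩ := hs'
  have hy : |s.re - 1 / 2| ≤ 1 / 2 := by
    rw [abs_le]
    constructor <;> linarith
  rw [norm_mul, norm_mul, norm_mul, norm_pow, Complex.norm_natCast, Complex.norm_exp,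
    Complex.norm_exp]
  have h1 : (I * ((α * Real.log T : ℝ) : ℂ) * H370.zz s).re = α * Real.log T * (s.re - 1 / 2) := by
    have e1 := H370.zz_im s
    have e2 := H370.zz_re s
    simp only [Complex.mul_re, Complex.I_re, Complex.I_im, Complex.ofReal_re, Complex.ofReal_im,
      Complex.mul_im, e1, e2]
    ring
  have h2 : (-(H370.zz s - (t : ℂ)) ^ 2 / 2).re ≤ 1 := by
    have e1 := H370.zz_im s
    have e2 := H370.zz_re s
    have e3 : (-(H370.zz s - (t : ℂ)) ^ 2 / 2).re = ((s.re - 1 / 2) ^ 2 - (s.im - t) ^ 2) / 2 := by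
      have e4 : (-(H370.zz s - (t : ℂ)) ^ 2 / 2) =
          ((-(1 / 2 : ℝ) : ℝ) : ℂ) * ((H370.zz s - (t : ℂ)) * (H370.zz s - (t : ℂ))) := by
        push_cast
        ring
      rw [e4, Complex.re_ofReal_mul, Complex.mul_re, Complex.sub_re, Complex.sub_im,
        Complex.ofReal_re, Complex.ofReal_im, e1, e2]
      ring
    rw [e3]
    have h3 : (s.re - 1 / 2) ^ 2 ≤ 1 := by
      rw [← sq_abs]
      have := abs_nonneg (s.re - 1 / 2)
      nlinarith
    have h4 := sq_nonneg (s.im - t)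
    linarith
  have h3 : ‖om w (Real.log T * (H370.zz s - t))‖ ≤
      2 * C * (1 + H) * Real.exp (δ * (Real.log T * |s.re - 1 / 2|)) /
        (1 + Real.log T * |s.im - t|) := by
    have h := om_bd hδ hH hC hK hw ((Real.log T : ℂ) * (H370.zz s - (t : ℂ)))
    have e1 : ((Real.log T : ℂ) * (H370.zz s - (t : ℂ))).re = Real.log T * (s.im - t) := by
      rw [Complex.re_ofReal_mul, Complex.sub_re, H370.zz_re, Complex.ofReal_re]
    have e2 : ((Real.log T : ℂ) * (H370.zz s - (t : ℂ))).im = Real.log T * (-(s.re - 1 / 2)) := by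
      rw [Complex.im_ofReal_mul, Complex.sub_im, H370.zz_im, Complex.ofReal_im, sub_zero]
    rw [e1, e2, abs_mul, abs_mul, abs_of_nonneg hL, abs_neg] at h
    exact h
  have h4 : Real.exp (α * Real.log T * (s.re - 1 / 2)) ≤
      Real.exp (α * (Real.log T * |s.re - 1 / 2|)) := by
    rw [Real.exp_le_exp, mul_assoc]
    have := le_abs_self (s.re - 1 / 2)
    gcongr
  have h5 : Real.exp ((-(H370.zz s - (t : ℂ)) ^ 2 / 2).re) ≤ Real.exp 1 := Real.exp_le_exp.2 h2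
  rw [h1]
  calc (mz s : ℝ) * (Real.exp (α * Real.log T * (s.re - 1 / 2)) *
        ‖om w (Real.log T * (H370.zz s - t))‖ ^ 2 * Real.exp ((-(H370.zz s - (t : ℂ)) ^ 2 / 2).re)) ≤
      (mz s : ℝ) * (Real.exp (α * (Real.log T * |s.re - 1 / 2|)) *
        (2 * C * (1 + H) * Real.exp (δ * (Real.log T * |s.re - 1 / 2|)) /
        (1 + Real.log T * |s.im - t|)) ^ 2 * Real.exp 1) := by gcongr
    _ = (2 * C * (1 + H)) ^ 2 * Real.exp 1 * ((mz s : ℝ) *
        ((Real.exp (α * (Real.log T * |s.re - 1 / 2|)) *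
          Real.exp (δ * (Real.log T * |s.re - 1 / 2|)) ^ 2) /
      (1 + Real.log T * |s.im - t|) ^ 2)) := by
        rw [div_pow, mul_pow]
        ring
    _ = _ := by
        congr 3
        rw [← Real.exp_nat_mul, ← Real.exp_add]
        congr 1
        push_cast
        ring

/-! ### from windows to points -/

open Classical in
theorem win_pt {F : Finset ℂ} {A B A' B' r : ℝ} (hr : 0 < r) {f k : ℝ → ℝ} (hf : Continuous f)
    (hk : Continuous k) (hf0 : ∀ t, 0 ≤ f t) (hk0 : ∀ t, 0 ≤ k t)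
    (hfk : ∀ x y : ℝ, |f y - f x| ≤ |∫ t in x..y, k t|) (hA : A ≤ A') (hAB : A' ≤ B') (hB : B' ≤ B)
    (hin : ∀ s ∈ F, A ≤ s.im - r ∧ s.im + r ≤ B) :
    ∫ t in A'..B', (∑ s ∈ F.filter (fun s => |s.im - t| ≤ r), (1 : ℝ)) * f t ≤
      2 * r * ∑ s ∈ F, f s.im +
        2 * r * ∫ t in A..B, (∑ s ∈ F.filter (fun s => |s.im - t| ≤ r), (1 : ℝ)) * k t := by
  rw [win_sum hf F (fun _ => (1 : ℝ)) A' B' r, win_sum hk F (fun _ => (1 : ℝ)) A B r,
    Finset.mul_sum, Finset.mul_sum, ← Finset.sum_add_distrib]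
  refine Finset.sum_le_sum fun s hs => ?_
  obtain ⟨h1, h2⟩ := hin s hs
  rw [one_mul, one_mul, ind_in h1 (by linarith) h2]
  have h3 : ∫ t in A'..B', Set.indicator (Set.Icc (s.im - r) (s.im + r)) f t ≤
      ∫ t in A..B, Set.indicator (Set.Icc (s.im - r) (s.im + r)) f t := by
    refine intervalIntegral.integral_mono_interval hA hAB hB ?_ (ind_ii hf _ _ _ _)
    exact Eventually.of_forall fun t => Set.indicator_nonneg (fun t _ => hf0 t) t
  refine h3.trans ?_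
  rw [ind_in h1 (by linarith) h2]
  have h4 : ∀ t ∈ Set.Icc (s.im - r) (s.im + r), f t ≤ f s.im +
      ∫ v in (s.im - r)..(s.im + r), k v := by
    intro t ht
    have h5 := hfk s.im t
    have h6 : |∫ v in s.im..t, k v| ≤ ∫ v in (s.im - r)..(s.im + r), k v := by
      rcases le_total s.im t with h | h
      · rw [abs_of_nonneg (intervalIntegral.integral_nonneg h fun v _ => hk0 v)]
        exact intervalIntegral.integral_mono_interval (by linarith) h ht.2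
          (Eventually.of_forall fun v => hk0 v) (hk.intervalIntegrable _ _)
      · rw [intervalIntegral.integral_symm, abs_neg,
          abs_of_nonneg (intervalIntegral.integral_nonneg h fun v _ => hk0 v)]
        exact intervalIntegral.integral_mono_interval ht.1 h (by linarith)
          (Eventually.of_forall fun v => hk0 v) (hk.intervalIntegrable _ _)
    have h7 := (abs_le.1 h5).2
    linarith
  have h5 := intervalIntegral.integral_mono_on (μ := volume) (show s.im - r ≤ s.im + r by linarith)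
    (hf.intervalIntegrable _ _) (continuous_const.intervalIntegrable _ _) h4
  refine h5.trans (le_of_eq ?_)
  rw [intervalIntegral.integral_const, smul_eq_mul]
  ring

open Classical in
/-- integrability of counting functions -/
theorem cnt_ii {g : ℝ → ℝ} (hg : Continuous g) (F : Finset ℂ) (r A B : ℝ) :
    IntervalIntegrable (fun t => (∑ s ∈ F.filter (fun s => |s.im - t| ≤ r), (1 : ℝ)) * g t)
      volume A B := by
  have h1 : (fun t => (∑ s ∈ F.filter (fun s => |s.im - t| ≤ r), (1 : ℝ)) * g t) =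
      fun t => ∑ s ∈ F, (1 : ℝ) * Set.indicator (Set.Icc (s.im - r) (s.im + r)) g t := by
    funext t
    rw [Finset.sum_filter, Finset.sum_mul]
    refine Finset.sum_congr rfl fun s _ => ?_
    by_cases h : |s.im - t| ≤ r
    · rw [if_pos h, Set.indicator_of_mem ((mem_win _ _ _).2 h)]
    · rw [if_neg h, Set.indicator_of_notMem (fun h' => h ((mem_win _ _ _).1 h'))]
      ring
  rw [h1]
  have h2 := IntervalIntegrable.sum (μ := volume) (a := A) (b := B) F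
    (f := fun s t => (1 : ℝ) * Set.indicator (Set.Icc (s.im - r) (s.im + r)) g t)
    fun s _ => (ind_ii hg _ _ _ _).const_mul _
  refine h2.congr ?_
  intro t _
  simp only [Finset.sum_apply]

open Classical in
/-- the counting function is bounded by `SS` -/
theorem cnt_SS {T A δ : ℝ} (hT : 1 < T) (hA : 0 ≤ A) (hδ : 0 ≤ δ) {F : Finset ℂ} (hF : F ⊆ ZD T)
    (hm : ∀ s ∈ F, 1 ≤ mz s) (t : ℝ) :
    (∑ s ∈ F.filter (fun s => |s.im - t| ≤ A / Real.log T), (1 : ℝ)) ≤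
      (1 + A) ^ 2 * SS δ T t := by
  have hL : 0 < Real.log T := Real.log_pos hT
  unfold SS
  rw [Finset.mul_sum]
  refine le_trans (Finset.sum_le_sum fun s hs => ?_)
    (Finset.sum_le_sum_of_subset_of_nonneg ((Finset.filter_subset _ _).trans hF) fun s _ _ =>
      mul_nonneg (by positivity) (SS_term_nonneg _ t s))
  rw [Finset.mem_filter] at hs
  obtain ⟨h1, h2⟩ := hs
  have h3 : Real.log T * |s.im - t| ≤ A := by
    rw [le_div_iff₀ hL] at h2
    linarith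
  have h4 : (1 : ℝ) ≤ mz s := by exact_mod_cast hm s h1
  have h5 : 1 ≤ Real.exp (2 * δ * (Real.log T * |s.re - 1 / 2|)) := Real.one_le_exp (by positivity)
  have h6 : 0 ≤ Real.log T * |s.im - t| := by positivity
  have h7 : (1 + Real.log T * |s.im - t|) ^ 2 ≤ (1 + A) ^ 2 := by gcongr
  have h8 : 1 ≤ (mz s : ℝ) * Real.exp (2 * δ * (Real.log T * |s.re - 1 / 2|)) :=
    one_le_mul_of_one_le_of_one_le h4 h5
  calc (1 : ℝ) ≤ (1 + A) ^ 2 / (1 + Real.log T * |s.im - t|) ^ 2 := by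
        rw [le_div_iff₀ (by positivity)]
        linarith
    _ ≤ (1 + A) ^ 2 / (1 + Real.log T * |s.im - t|) ^ 2 *
        ((mz s : ℝ) * Real.exp (2 * δ * (Real.log T * |s.re - 1 / 2|))) :=
        le_mul_of_one_le_right (by positivity) h8
    _ = _ := by ring

/-! ### the mean square over the windows -/

theorem int4 {a b c d x y : ℝ} {f1 f2 f3 f4 : ℝ → ℝ} (i1 : IntervalIntegrable f1 volume x y)
    (i2 : IntervalIntegrable f2 volume x y) (i3 : IntervalIntegrable f3 volume x y)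
    (i4 : IntervalIntegrable f4 volume x y) :
    ∫ t in x..y, (a * f1 t + b * f2 t + c * f3 t + d * f4 t) =
      a * (∫ t in x..y, f1 t) + b * (∫ t in x..y, f2 t) + c * (∫ t in x..y, f3 t) +
        d * (∫ t in x..y, f4 t) := by
  rw [intervalIntegral.integral_add (((i1.const_mul a).add (i2.const_mul b)).add (i3.const_mul c))
      (i4.const_mul d),
    intervalIntegral.integral_add ((i1.const_mul a).add (i2.const_mul b)) (i3.const_mul c),
    intervalIntegral.integral_add (i1.const_mul a) (i2.const_mul b),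
    intervalIntegral.integral_const_mul, intervalIntegral.integral_const_mul,
    intervalIntegral.integral_const_mul, intervalIntegral.integral_const_mul]

open Classical in
/-- the windows with bad zeros carry a positive proportion -/
theorem ugb_win {z s g f : ℝ → ℝ} {x y x' y' c₁ c₂ lam I D2 D4 S : ℝ} (hxx : x' ≤ x) (hxy : x ≤ y)
    (hyy : y ≤ y') (hz : Continuous z) (hs : Continuous s) (hf : Continuous f)
    (hg : IntervalIntegrable (fun t => g t * f t) volume x y) (hs0 : ∀ t, 0 ≤ s t)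
    (hf0 : ∀ t, 0 ≤ f t) (hg0 : ∀ t, 0 ≤ g t) (hc₁ : 0 ≤ c₁) (hc₂ : 0 < c₂) (hlam : 0 < lam)
    (h1 : ∀ t ∈ Set.Icc x y, |z t| ≤ c₂ * s t)
    (h2 : ∀ t ∈ Set.Icc x y, |z t| ≤ 2 * c₁ + c₁ * s t ∨ 1 ≤ g t)
    (hI : 4 * I * S ≤ ∫ t in x..y, z t ^ 2 * f t) (hMV : ∫ t in x..y, f t ≤ 2 * S)
    (hS2 : ∫ t in x'..y', s t ^ 2 * f t ≤ D2 * S) (hS4 : ∫ t in x'..y', s t ^ 4 * f t ≤ D4 * S)
    (hS : 0 ≤ S) (hD2 : 16 * c₁ ^ 2 + 2 * c₁ ^ 2 * D2 ≤ I) (hD4 : c₂ ^ 2 * lam * D4 ≤ I) :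
    8 * lam * I / c₂ ^ 2 * S ≤ ∫ t in x..y, g t * f t := by
  have key : ∀ t ∈ Set.Icc x y, z t ^ 2 * f t ≤ (8 * c₁ ^ 2) * f t + (2 * c₁ ^ 2) * (s t ^ 2 * f t) +
      (c₂ ^ 2 * lam) * (s t ^ 4 * f t) + (c₂ ^ 2 * (4 * lam)⁻¹) * (g t * f t) := by
    intro t ht
    have e1 : (8 * c₁ ^ 2) * f t + (2 * c₁ ^ 2) * (s t ^ 2 * f t) +
      (c₂ ^ 2 * lam) * (s t ^ 4 * f t) + (c₂ ^ 2 * (4 * lam)⁻¹) * (g t * f t) =
      (8 * c₁ ^ 2 + 2 * c₁ ^ 2 * s t ^ 2 + c₂ ^ 2 * lam * s t ^ 4 +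
        c₂ ^ 2 * (4 * lam)⁻¹ * g t) * f t := by ring
    rw [e1]
    refine mul_le_mul_of_nonneg_right ?_ (hf0 t)
    have h0 := hs0 t
    have hz0 := abs_nonneg (z t)
    rcases h2 t ht with h | h
    · have h3 : z t ^ 2 ≤ (2 * c₁ + c₁ * s t) ^ 2 := by
        rw [← sq_abs (z t)]
        exact pow_le_pow_left₀ hz0 h 2
      have h4 : (2 * c₁ + c₁ * s t) ^ 2 ≤ 8 * c₁ ^ 2 + 2 * c₁ ^ 2 * s t ^ 2 := by
        have := sq_nonneg (2 * c₁ - c₁ * s t)
        nlinarith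
      have h5 : 0 ≤ c₂ ^ 2 * lam * s t ^ 4 := by positivity
      have h6 : 0 ≤ c₂ ^ 2 * (4 * lam)⁻¹ * g t := mul_nonneg (by positivity) (hg0 t)
      linarith
    · have h3 : z t ^ 2 ≤ (c₂ * s t) ^ 2 := by
        rw [← sq_abs (z t)]
        exact pow_le_pow_left₀ hz0 (h1 t ht) 2
      have h4 : s t ^ 2 ≤ lam * s t ^ 4 + (4 * lam)⁻¹ := by
        have h5 : 0 ≤ lam * (s t ^ 2 - (2 * lam)⁻¹) ^ 2 := by positivity
        have h6 : lam * (s t ^ 2 - (2 * lam)⁻¹) ^ 2 = lam * s t ^ 4 + (4 * lam)⁻¹ - s t ^ 2 := by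
          field_simp
          ring
        linarith
      have h5 : (4 * lam)⁻¹ ≤ (4 * lam)⁻¹ * g t := le_mul_of_one_le_right (by positivity) h
      have h6 : c₂ ^ 2 * s t ^ 2 ≤ c₂ ^ 2 * (lam * s t ^ 4 + (4 * lam)⁻¹ * g t) := by gcongr; linarith
      have h7 : 0 ≤ 8 * c₁ ^ 2 + 2 * c₁ ^ 2 * s t ^ 2 := by positivity
      nlinarith
  have i1 : IntervalIntegrable f volume x y := hf.intervalIntegrable _ _
  have i2 : IntervalIntegrable (fun t => s t ^ 2 * f t) volume x y :=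
    ((hs.pow 2).mul hf).intervalIntegrable _ _
  have i3 : IntervalIntegrable (fun t => s t ^ 4 * f t) volume x y :=
    ((hs.pow 4).mul hf).intervalIntegrable _ _
  have hmono := intervalIntegral.integral_mono_on (μ := volume) hxy
    (((hz.pow 2).mul hf).intervalIntegrable x y)
    ((((i1.const_mul (8 * c₁ ^ 2)).add (i2.const_mul (2 * c₁ ^ 2))).add
      (i3.const_mul (c₂ ^ 2 * lam))).add (hg.const_mul (c₂ ^ 2 * (4 * lam)⁻¹))) key
  have hint := int4 (a := 8 * c₁ ^ 2) (b := 2 * c₁ ^ 2) (c := c₂ ^ 2 * lam)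
    (d := c₂ ^ 2 * (4 * lam)⁻¹) i1 i2 i3 hg
  have m2 : ∫ t in x..y, s t ^ 2 * f t ≤ D2 * S := by
    refine le_trans ?_ hS2
    exact intervalIntegral.integral_mono_interval hxx hxy hyy
      (Eventually.of_forall fun t => mul_nonneg (by positivity) (hf0 t))
      (((hs.pow 2).mul hf).intervalIntegrable _ _)
  have m4 : ∫ t in x..y, s t ^ 4 * f t ≤ D4 * S := by
    refine le_trans ?_ hS4
    exact intervalIntegral.integral_mono_interval hxx hxy hyy
      (Eventually.of_forall fun t => mul_nonneg (by positivity) (hf0 t))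
      (((hs.pow 4).mul hf).intervalIntegrable _ _)
  set G := ∫ t in x..y, g t * f t with hG
  have h3 : 4 * I * S ≤ 8 * c₁ ^ 2 * (2 * S) + 2 * c₁ ^ 2 * (D2 * S) + c₂ ^ 2 * lam * (D4 * S) +
      c₂ ^ 2 * (4 * lam)⁻¹ * G := by
    have e : ∫ t in x..y, z t ^ 2 * f t ≤ 8 * c₁ ^ 2 * (∫ t in x..y, f t) +
        2 * c₁ ^ 2 * (∫ t in x..y, s t ^ 2 * f t) + c₂ ^ 2 * lam * (∫ t in x..y, s t ^ 4 * f t) +
        c₂ ^ 2 * (4 * lam)⁻¹ * G := by
      rw [← hint]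
      exact hmono
    have e2 : 8 * c₁ ^ 2 * (∫ t in x..y, f t) ≤ 8 * c₁ ^ 2 * (2 * S) := by gcongr
    have e3 : 2 * c₁ ^ 2 * (∫ t in x..y, s t ^ 2 * f t) ≤ 2 * c₁ ^ 2 * (D2 * S) := by gcongr
    have e4 : c₂ ^ 2 * lam * (∫ t in x..y, s t ^ 4 * f t) ≤ c₂ ^ 2 * lam * (D4 * S) := by gcongr
    linarith
  have h4 : (16 * c₁ ^ 2 + 2 * c₁ ^ 2 * D2) * S ≤ I * S := mul_le_mul_of_nonneg_right hD2 hS
  have h5 : c₂ ^ 2 * lam * D4 * S ≤ I * S := mul_le_mul_of_nonneg_right hD4 hS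
  have h6 : 2 * I * S ≤ c₂ ^ 2 * (4 * lam)⁻¹ * G := by linarith
  have h7 : 8 * lam * I / c₂ ^ 2 * S = (4 * lam) / c₂ ^ 2 * (2 * I * S) := by ring
  rw [h7]
  calc (4 * lam) / c₂ ^ 2 * (2 * I * S) ≤ (4 * lam) / c₂ ^ 2 * (c₂ ^ 2 * (4 * lam)⁻¹ * G) := by
        gcongr
    _ = G := by field_simp

theorem mz_pos {T : ℝ} (hT : 1 ≤ T) {s : ℂ} (hs : s ∈ H370.Zf riemannZeta T (2 * T)) :
    1 ≤ mz s := by
  have hF := H370.good_zeta
  rw [H370.mem_Zf hF hT] at hs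
  exact H370.Loc.mult_pos' hF (show 0 < s.im by linarith [hs.2.2.1]) hs.2.2.2.2

open Classical in
/-- from the windows to the bad zeros -/
theorem ugb_pt (hD : S_DPM) {T A θ D1 δ : ℝ} (hT : 16 ≤ T) (hL1 : 1 ≤ Real.log T) (hA : 0 < A)
    (hAL : A ≤ Real.log T) (hLT : 4 * Real.log T ≤ T) (hδ : 0 ≤ δ) (hθ : 0 < θ) {N : ℕ}
    (hN : (N : ℝ) ≤ T ^ θ) (b : ℕ → ℂ)
    (hS1 : ∀ b : ℕ → ℂ, ∫ t in (T / 4)..(8 * T), SS δ T t ^ 1 * ‖dp N b t‖ ^ 2 ≤ D1 * T * N2 N b)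
    (hD1 : 0 ≤ D1) {F : Finset ℂ} (hF : F ⊆ H370.Zf riemannZeta T (2 * T)) :
    ∫ t in (T + 2 * Real.log T)..(2 * T - 2 * Real.log T),
      (∑ s ∈ F.filter (fun s => |s.im - t| ≤ A / Real.log T), (1 : ℝ)) * ‖dp N b t‖ ^ 2 ≤
      2 * (A / Real.log T) * ∑ s ∈ F, ‖dp N b s.im‖ ^ 2 +
        4 * A * (1 + A) ^ 2 * D1 * θ * (T * N2 N b) := by
  have hF0 := H370.good_zeta
  set L : ℝ := Real.log T with hL
  have hL0 : 0 < L := by linarith
  have hT0 : 0 < T := by linarith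
  have hr0 : 0 < A / L := by positivity
  have hr1 : A / L ≤ 1 := by rw [div_le_one hL0]; exact hAL
  have hc : ∀ c : ℕ → ℂ, Continuous (dp N c) := fun c => (hD.2.2 N c 0).2
  have hlam0 : 0 < θ * L := by positivity
  have hS0 := N2_nonneg N b
  have hkc : Continuous fun t => (θ * L) * ‖dp N b t‖ ^ 2 + (θ * L)⁻¹ * ‖dp N (bd b) t‖ ^ 2 :=
    (((hc b).norm.pow 2).const_mul _).add (((hc (bd b)).norm.pow 2).const_mul _)
  have hin : ∀ s ∈ F, T / 4 ≤ s.im - A / L ∧ s.im + A / L ≤ 8 * T := by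
    intro s hs
    have h1 := hF hs
    rw [H370.mem_Zf hF0 (by linarith)] at h1
    obtain ⟨a1, a2, a3, a4, a5⟩ := h1
    constructor <;> linarith
  have hFD : F ⊆ ZD T := by
    intro s hs
    have h1 := hF hs
    unfold ZD
    rw [H370.mem_Zf hF0 (by linarith)] at h1 ⊢
    obtain ⟨a1, a2, a3, a4, a5⟩ := h1
    exact ⟨a1, a2, by linarith, by linarith, a5⟩
  have core := win_pt (F := F) (A := T / 4) (B := 8 * T) (A' := T + 2 * L) (B' := 2 * T - 2 * L)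
    (r := A / L) hr0 (f := fun t => ‖dp N b t‖ ^ 2)
    (k := fun t => (θ * L) * ‖dp N b t‖ ^ 2 + (θ * L)⁻¹ * ‖dp N (bd b) t‖ ^ 2)
    ((hc b).norm.pow 2) hkc (fun t => by positivity) (fun t => by positivity)
    (dp_var hD N b hlam0) (by linarith) (by linarith) (by linarith) hin
  refine core.trans (add_le_add le_rfl ?_)
  have hSc := SS_cont δ (T := T) (by linarith)
  have h1 : ∫ t in (T / 4)..(8 * T), (∑ s ∈ F.filter (fun s => |s.im - t| ≤ A / L), (1 : ℝ)) *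
      ((θ * L) * ‖dp N b t‖ ^ 2 + (θ * L)⁻¹ * ‖dp N (bd b) t‖ ^ 2) ≤
      ∫ t in (T / 4)..(8 * T), ((1 + A) ^ 2 * (θ * L) * (SS δ T t ^ 1 * ‖dp N b t‖ ^ 2) +
        (1 + A) ^ 2 * (θ * L)⁻¹ * (SS δ T t ^ 1 * ‖dp N (bd b) t‖ ^ 2)) := by
    refine intervalIntegral.integral_mono_on (by linarith) (cnt_ii hkc F _ _ _) ?_ fun t _ => ?_
    · refine Continuous.intervalIntegrable ?_ _ _
      exact (((hSc.pow 1).mul ((hc b).norm.pow 2)).const_mul _).add
        (((hSc.pow 1).mul ((hc (bd b)).norm.pow 2)).const_mul _)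
    · have h2 := cnt_SS (T := T) (A := A) (δ := δ) (by linarith) hA.le hδ hFD
        (fun s hs => mz_pos (by linarith) (hF hs)) t
      have h3 : 0 ≤ (θ * L) * ‖dp N b t‖ ^ 2 + (θ * L)⁻¹ * ‖dp N (bd b) t‖ ^ 2 := by positivity
      refine (mul_le_mul_of_nonneg_right h2 h3).trans (le_of_eq ?_)
      rw [pow_one]
      ring
  have j1 : IntervalIntegrable (fun t => (1 + A) ^ 2 * (θ * L) * (SS δ T t ^ 1 * ‖dp N b t‖ ^ 2))
      volume (T / 4) (8 * T) :=
    (((hSc.pow 1).mul ((hc b).norm.pow 2)).const_mul _).intervalIntegrable _ _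
  have j2 : IntervalIntegrable
      (fun t => (1 + A) ^ 2 * (θ * L)⁻¹ * (SS δ T t ^ 1 * ‖dp N (bd b) t‖ ^ 2))
      volume (T / 4) (8 * T) :=
    (((hSc.pow 1).mul ((hc (bd b)).norm.pow 2)).const_mul _).intervalIntegrable _ _
  rw [intervalIntegral.integral_add j1 j2, intervalIntegral.integral_const_mul,
    intervalIntegral.integral_const_mul] at h1
  have hNL : N2 N (bd b) ≤ (θ * L) ^ 2 * N2 N b := by
    refine (N2_bd N b).trans (mul_le_mul_of_nonneg_right ?_ hS0)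
    rcases Nat.eq_zero_or_pos N with h0 | h0
    · rw [h0]; simp; positivity
    · have h1 : (1 : ℝ) ≤ N := by exact_mod_cast h0
      have h2 : Real.log N ≤ θ * L := by
        rw [hL, ← Real.log_rpow hT0]
        exact Real.log_le_log (by linarith) hN
      have h3 := Real.log_nonneg h1
      gcongr
  have h2 := hS1 b
  have h3 := hS1 (bd b)
  have h4 : D1 * T * N2 N (bd b) ≤ D1 * T * ((θ * L) ^ 2 * N2 N b) := by gcongr
  have h5 : (1 + A) ^ 2 * (θ * L) * (∫ t in (T / 4)..(8 * T), SS δ T t ^ 1 * ‖dp N b t‖ ^ 2) ≤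
      (1 + A) ^ 2 * (θ * L) * (D1 * T * N2 N b) := by gcongr
  have h6 : (1 + A) ^ 2 * (θ * L)⁻¹ *
      (∫ t in (T / 4)..(8 * T), SS δ T t ^ 1 * ‖dp N (bd b) t‖ ^ 2) ≤
      (1 + A) ^ 2 * (θ * L)⁻¹ * (D1 * T * ((θ * L) ^ 2 * N2 N b)) := by
    gcongr
    exact h3.trans h4
  calc 2 * (A / L) * (∫ t in (T / 4)..(8 * T),
        (∑ s ∈ F.filter (fun s => |s.im - t| ≤ A / L), (1 : ℝ)) *
      ((θ * L) * ‖dp N b t‖ ^ 2 + (θ * L)⁻¹ * ‖dp N (bd b) t‖ ^ 2)) ≤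
      2 * (A / L) * ((1 + A) ^ 2 * (θ * L) * (D1 * T * N2 N b) +
        (1 + A) ^ 2 * (θ * L)⁻¹ * (D1 * T * ((θ * L) ^ 2 * N2 N b))) := by
        gcongr
        linarith
    _ = 4 * A * (1 + A) ^ 2 * D1 * θ * (T * N2 N b) := by
        field_simp
        ring

theorem t_UGB : J_UGB := by
  classical
  intro hUGP hOM hQH hZU hSTM hD _ hMVL ⟨θ₀, c₀, CT, hθ₀, hθ₀', hc₀, hCT, hTail⟩
  have hF0 := H370.good_zeta
  -- the constants
  obtain ⟨α, hα0, hα8, hαc⟩ : ∃ α : ℝ, 0 < α ∧ α ≤ 1 / 8 ∧ 100 * α ≤ c₀ := by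
    refine ⟨min (c₀ / 100) (1 / 8), by positivity, min_le_right _ _, ?_⟩
    have := min_le_left (c₀ / 100) (1 / 8 : ℝ)
    linarith
  obtain ⟨C₀, hC₀, hZU⟩ := hZU
  have hC00 : 0 < C₀ := by linarith
  obtain ⟨δ, hδ0, hδα, hδC⟩ : ∃ δ : ℝ, 0 < δ ∧ δ ≤ α / 8 ∧ C₀ * δ ≤ α / 16 := by
    refine ⟨min (α / 8) (α / (16 * C₀)), by positivity, min_le_left _ _, ?_⟩
    have h1 := min_le_right (α / 8) (α / (16 * C₀))
    calc C₀ * min (α / 8) (α / (16 * C₀)) ≤ C₀ * (α / (16 * C₀)) := by gcongr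
      _ = α / 16 := by field_simp
  obtain ⟨θ₁, hθ₁0, hθ₁40, hθ₁C⟩ : ∃ θ₁ : ℝ, 0 < θ₁ ∧ θ₁ ≤ 1 / 40 ∧ C₀ * Real.sqrt θ₁ ≤ α / 16 := by
    refine ⟨min (1 / 40) ((α / (16 * C₀)) ^ 2), by positivity, min_le_left _ _, ?_⟩
    have h1 := min_le_right (1 / 40) ((α / (16 * C₀)) ^ 2)
    have h2 : Real.sqrt (min (1 / 40) ((α / (16 * C₀)) ^ 2)) ≤ α / (16 * C₀) := by
      refine (Real.sqrt_le_sqrt h1).trans (le_of_eq ?_)
      exact Real.sqrt_sq (by positivity)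
    calc C₀ * Real.sqrt (min (1 / 40) ((α / (16 * C₀)) ^ 2)) ≤ C₀ * (α / (16 * C₀)) := by gcongr
      _ = α / 16 := by field_simp
  obtain ⟨C, hC, hwe⟩ := hOM 2 δ hδ0 (by linarith)
  have hC4 : 1 ≤ C ^ 4 := one_le_pow₀ hC
  obtain ⟨H, hHdef⟩ : ∃ H : ℝ, H = 8 * C ^ 4 := ⟨_, rfl⟩
  have hH1 : 1 ≤ H := by linarith
  obtain ⟨w, hw⟩ := hwe H hH1
  obtain ⟨-, -, -, -, -, hI2⟩ := hQH δ H C 2 w hδ0 (by linarith) hH1 hC le_rfl hw
  have hI2pos : 0 < I2 w := by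
    have h1 := (abs_le.1 hI2).1
    have h2 : 0 < Real.pi * I2 w := by linarith
    by_contra hcon
    have h3 := mul_nonpos_of_nonneg_of_nonpos Real.pi_pos.le (not_lt.1 hcon)
    linarith
  obtain ⟨J, hJdef⟩ : ∃ J : ℝ, J = α * I2 w / 8 := ⟨_, rfl⟩
  have hJ0 : 0 < J := by rw [hJdef]; positivity
  obtain ⟨C₁, hC₁, hU⟩ := hUGP δ H C 2 w α hδ0 (by linarith) hH1 hC le_rfl hw (by linarith)
    (by linarith)
  obtain ⟨δ', hδ'def⟩ : ∃ δ' : ℝ, δ' = (α + 2 * δ) / 2 := ⟨_, rfl⟩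
  rw [← hδ'def] at hU
  have hδ'0 : 0 < δ' := by rw [hδ'def]; positivity
  have hδ'c : 80 * δ' ≤ c₀ := by rw [hδ'def]; linarith
  obtain ⟨D1, hD1, hS1⟩ := hSTM θ₀ c₀ CT hθ₀ hθ₀' hc₀ hCT hTail 1 δ' hδ'0 (by push_cast; linarith)
  obtain ⟨D2, hD2, hS2⟩ := hSTM θ₀ c₀ CT hθ₀ hθ₀' hc₀ hCT hTail 2 δ' hδ'0 (by push_cast; linarith)
  obtain ⟨D4, hD4, hS4⟩ := hSTM θ₀ c₀ CT hθ₀ hθ₀' hc₀ hCT hTail 4 δ' hδ'0 (by push_cast; linarith)
  obtain ⟨c₂, hc₂def⟩ : ∃ c₂ : ℝ, c₂ = (2 * C * (1 + H)) ^ 2 * Real.exp 1 := ⟨_, rfl⟩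
  have hc₂0 : 0 < c₂ := by rw [hc₂def]; positivity
  obtain ⟨A, hA100, hAH, hAJ⟩ : ∃ A : ℝ, 100 ≤ A ∧ 2 * H ≤ A ∧ (16 + 2 * D2) * C₁ ^ 2 / J ≤ A := by
    refine ⟨max (max 100 (2 * H)) ((16 + 2 * D2) * C₁ ^ 2 / J), ?_, ?_, le_max_right _ _⟩
    · exact (le_max_left _ _).trans (le_max_left _ _)
    · exact (le_max_right _ _).trans (le_max_left _ _)
  have hA0 : 0 < A := by linarith
  obtain ⟨η, hηdef⟩ : ∃ η : ℝ, η = 1 / A ^ 4 := ⟨_, rfl⟩
  have hη0 : 0 < η := by rw [hηdef]; positivity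
  have hη2 : η ≤ 1 / 2 := by
    rw [hηdef]
    refine one_div_le_one_div_of_le (by norm_num) ?_
    calc (2 : ℝ) ≤ A := by linarith
      _ ≤ A ^ 4 := one_le_pow_self (by linarith) (by norm_num)
  obtain ⟨c₁, hc₁def⟩ : ∃ c₁ : ℝ, c₁ = C₁ / A ^ 2 := ⟨_, rfl⟩
  have hc₁0 : 0 ≤ c₁ := by rw [hc₁def]; positivity
  have hc₁' : C₁ * (η * A ^ 2 + 1 / A ^ 2) = 2 * c₁ := by
    rw [hηdef, hc₁def]
    field_simp
    ring
  have hcond1 : 16 * c₁ ^ 2 + 2 * c₁ ^ 2 * D2 ≤ J := by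
    have h1 : c₁ ^ 2 ≤ C₁ ^ 2 / A := by
      rw [hc₁def, div_pow]
      refine div_le_div_of_nonneg_left (by positivity) hA0 ?_
      rw [← pow_mul]
      exact one_le_pow_self (by linarith) (by norm_num)
    have h2 : (16 + 2 * D2) * C₁ ^ 2 ≤ A * J := by
      rw [div_le_iff₀ hJ0] at hAJ
      exact hAJ
    calc 16 * c₁ ^ 2 + 2 * c₁ ^ 2 * D2 = (16 + 2 * D2) * c₁ ^ 2 := by ring
      _ ≤ (16 + 2 * D2) * (C₁ ^ 2 / A) := by gcongr
      _ = (16 + 2 * D2) * C₁ ^ 2 / A := by ring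
      _ ≤ J := by
          rw [div_le_iff₀ hA0]
          linarith
  obtain ⟨lam, hlamdef⟩ : ∃ lam : ℝ, lam = J / (c₂ ^ 2 * (D4 + 1)) := ⟨_, rfl⟩
  have hlam0 : 0 < lam := by rw [hlamdef]; positivity
  have hcond2 : c₂ ^ 2 * lam * D4 ≤ J := by
    have h1 : c₂ ^ 2 * lam * D4 = J * (D4 / (D4 + 1)) := by
      rw [hlamdef]
      field_simp
    rw [h1]
    have h2 : D4 / (D4 + 1) ≤ 1 := by
      rw [div_le_one (by linarith)]
      linarith
    calc J * (D4 / (D4 + 1)) ≤ J * 1 := by gcongr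
      _ = J := mul_one J
  obtain ⟨κ, hκdef⟩ : ∃ κ : ℝ, κ = 8 * lam * J / c₂ ^ 2 := ⟨_, rfl⟩
  have hκ0 : 0 < κ := by rw [hκdef]; positivity
  obtain ⟨θ, hθ0, hθ1, hθ2, hθ3⟩ : ∃ θ : ℝ, 0 < θ ∧ θ ≤ θ₁ ∧ θ ≤ θ₀ / 2 ∧
      4 * A * (1 + A) ^ 2 * D1 * θ ≤ κ / 2 := by
    refine ⟨min (min θ₁ (θ₀ / 2)) (κ / (8 * A * (1 + A) ^ 2 * (D1 + 1))), by positivity,
      (min_le_left _ _).trans (min_le_left _ _), (min_le_left _ _).trans (min_le_right _ _), ?_⟩
    have h1 := min_le_right (min θ₁ (θ₀ / 2)) (κ / (8 * A * (1 + A) ^ 2 * (D1 + 1)))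
    calc 4 * A * (1 + A) ^ 2 * D1 * min (min θ₁ (θ₀ / 2)) (κ / (8 * A * (1 + A) ^ 2 * (D1 + 1))) ≤
        4 * A * (1 + A) ^ 2 * D1 * (κ / (8 * A * (1 + A) ^ 2 * (D1 + 1))) := by gcongr
      _ = κ / 2 * (D1 / (D1 + 1)) := by
          field_simp
          ring
      _ ≤ κ / 2 * 1 := by
          gcongr
          rw [div_le_one (by linarith)]
          linarith
      _ = κ / 2 := mul_one _
  refine ⟨θ, κ / (4 * A), η, hθ0, by positivity, hη0, hη2, ?_⟩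
  have hlog2 : ∀ᶠ T : ℝ in atTop, 4 * Real.log T ≤ T := by
    have h2 := (Real.isLittleO_log_id_atTop).bound (show (0 : ℝ) < 1 / 4 by norm_num)
    filter_upwards [h2, eventually_ge_atTop (1 : ℝ)] with T h hT
    simp only [id] at h
    rw [Real.norm_eq_abs, Real.norm_eq_abs, abs_of_nonneg (Real.log_nonneg hT),
      abs_of_nonneg (by positivity)] at h
    linarith
  have hZU' := hZU δ H C 2 w θ₁ J 1 hδ0 (by linarith) hH1 hC le_rfl hw hθ₁0 hθ₁40 hJ0 one_pos le_rfl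
  filter_upwards [hZU', hU A η hA100 hAH hη0 hη2, hS1, hS2, hS4, hlog2, eventually_ge_atTop (16 : ℝ),
    Real.tendsto_log_atTop.eventually_ge_atTop 1, Real.tendsto_log_atTop.eventually_ge_atTop A]
    with T hZU hU hS1 hS2 hS4 hLT hT hL1 hLA
  intro N hN b
  have hT0 : 0 < T := by linarith
  have hT1 : 1 ≤ T := by linarith
  have hN1 : (N : ℝ) ≤ T ^ θ₁ := hN.trans (Real.rpow_le_rpow_of_exponent_le hT1 hθ1)
  have hN2 : (N : ℝ) ≤ T ^ (θ₀ / 2) := hN.trans (Real.rpow_le_rpow_of_exponent_le hT1 hθ2)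
  have hN3 : (N : ℝ) ≤ T ^ (1 / 4 : ℝ) :=
    hN.trans (Real.rpow_le_rpow_of_exponent_le hT1 (by linarith))
  set L : ℝ := Real.log T with hL
  have hL0 : 0 < L := by linarith
  have hr1 : A / L ≤ 1 := by rw [div_le_one hL0]; exact hLA
  have hNn := N2_nonneg N b
  set S : ℝ := T * N2 N b with hS
  have hS0 : 0 ≤ S := by positivity
  set F : Finset ℂ := (H370.Zf riemannZeta T (2 * T)).filter (fun s => ¬ Gd η T s) with hFdef
  have hF : F ⊆ H370.Zf riemannZeta T (2 * T) := Finset.filter_subset _ _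
  have hc : Continuous (dp N b) := (hD.2.2 N b 0).2
  have hcw : Continuous w := by
    obtain ⟨D, hD⟩ := hw.lip
    have : LipschitzWith (Real.toNNReal D) w := by
      refine LipschitzWith.of_dist_le_mul fun x y => ?_
      rw [Real.dist_eq, Real.dist_eq]
      exact (hD x y).trans (mul_le_mul_of_nonneg_right (Real.le_coe_toNNReal D) (abs_nonneg _))
    exact this.continuous
  have hcp : Cp δ w := ⟨hcw, hw.supp⟩
  have hzc : Continuous fun t : ℝ => ‖Zt w T (α * L) t‖ := by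
    have h1 := (Zt_cont hcp T).comp (show Continuous fun t : ℝ => ((α * L, t) : ℝ × ℝ) by fun_prop)
    exact h1.norm
  have hxy : T + 2 * L ≤ 2 * T - 2 * L := by linarith
  have hI : 4 * J * S ≤ ∫ t in (T + 2 * L)..(2 * T - 2 * L), ‖Zt w T (α * L) t‖ ^ 2 *
      ‖dp N b t‖ ^ 2 := by
    have h1 := hZU N hN1 b (α * L) (by positivity) (by
      have : α ≤ 1 - 4 * δ - 2 * θ₁ := by linarith
      exact mul_le_mul_of_nonneg_right this hL0.le)
    rw [if_pos (by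
      have : 3 * δ ≤ α := by linarith
      exact mul_le_mul_of_nonneg_right this hL0.le)] at h1
    have h2 := (abs_le.1 h1).1
    have h3 : α * L / L = α := by field_simp
    rw [h3] at h2
    have h4 : C₀ * (δ + Real.sqrt θ₁) * I2 w ≤ α / 8 * I2 w := by
      gcongr
      linarith
    have h5 : (C₀ * (δ + Real.sqrt θ₁) * I2 w + J) * S ≤ (α / 8 * I2 w + J) * S := by gcongr
    have h6 : 0 ≤ QL w L (α * L) ^ 2 * S := by positivity
    have h7 : α * I2 w = 8 * J := by rw [hJdef]; ring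
    have e1 : (C₀ * (δ + Real.sqrt θ₁) * I2 w + J) * T * N2 N b =
        (C₀ * (δ + Real.sqrt θ₁) * I2 w + J) * S := by rw [hS]; ring
    have e2 : (QL w L (α * L) ^ 2 + α * I2 w) * T * N2 N b =
        QL w L (α * L) ^ 2 * S + 8 * J * S := by rw [hS, ← h7]; ring
    rw [e1, e2] at h2
    have h8 : (α / 8 * I2 w + J) * S = 2 * J * S := by
      have : α / 8 * I2 w = J := by rw [hJdef]; ring
      rw [this]
      ring
    rw [h8] at h5
    have h9 : 0 ≤ J * S := by positivity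
    linarith
  have hMV : ∫ t in (T + 2 * L)..(2 * T - 2 * L), ‖dp N b t‖ ^ 2 ≤ 2 * S := by
    have h1 := (hMVL T hT N hN3 b).2
    have h2 : ∫ t in (T + 2 * L)..(2 * T - 2 * L), ‖dp N b t‖ ^ 2 ≤
        ∫ t in T..(2 * T), ‖dp N b t‖ ^ 2 :=
      intervalIntegral.integral_mono_interval (by linarith) hxy (by linarith)
        (Eventually.of_forall fun t => by positivity) ((hc.norm.pow 2).intervalIntegrable _ _)
    calc ∫ t in (T + 2 * L)..(2 * T - 2 * L), ‖dp N b t‖ ^ 2 ≤ 2 * T * N2 N b := h2.trans h1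
      _ = 2 * S := by rw [hS]; ring
  have key := ugb_win (z := fun t => ‖Zt w T (α * L) t‖) (s := SS δ' T)
    (g := fun t => ∑ s ∈ F.filter (fun s => |s.im - t| ≤ A / L), (1 : ℝ))
    (f := fun t => ‖dp N b t‖ ^ 2) (x := T + 2 * L) (y := 2 * T - 2 * L) (x' := T / 4)
    (y' := 8 * T) (c₁ := c₁) (c₂ := c₂) (lam := lam) (I := J) (D2 := D2) (D4 := D4) (S := S)
    (by linarith) hxy (by linarith) hzc (SS_cont δ' hT1) (hc.norm.pow 2)
    (cnt_ii (hc.norm.pow 2) F _ _ _) (SS_nonneg δ' T) (fun t => by positivity)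
    (fun t => Finset.sum_nonneg fun _ _ => zero_le_one) hc₁0 hc₂0 hlam0
    (fun t _ => by
      rw [abs_of_nonneg (norm_nonneg _), hc₂def, hδ'def]
      exact Zt_le hδ0 hH1 hC le_rfl hw hα0.le hT t)
    (fun t ht => by
      by_cases h : ∀ s ∈ ZD T, |s.im - t| ≤ A / L → Gd η T s
      · left
        rw [abs_of_nonneg (norm_nonneg _), ← hc₁', hc₁def]
        exact hU t ht.1 ht.2 h
      · right
        push Not at h
        obtain ⟨s, hs, hst, hsb⟩ := h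
        have hsF : s ∈ F := by
          rw [hFdef, Finset.mem_filter]
          refine ⟨?_, hsb⟩
          unfold ZD at hs
          rw [H370.mem_Zf hF0 (by linarith)] at hs ⊢
          obtain ⟨a1, a2, a3, a4, a5⟩ := hs
          have h3 := abs_le.1 hst
          have h4 := ht.1
          have h5 := ht.2
          exact ⟨a1, a2, by linarith, by linarith, a5⟩
        have hmem : s ∈ F.filter (fun s => |s.im - t| ≤ A / L) := Finset.mem_filter.2 ⟨hsF, hst⟩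
        exact Finset.single_le_sum (f := fun _ : ℂ => (1 : ℝ)) (fun _ _ => zero_le_one) hmem)
    hI hMV
    (by
      have := hS2 N hN2 b
      rw [hS, ← mul_assoc]
      exact this)
    (by
      have := hS4 N hN2 b
      rw [hS, ← mul_assoc]
      exact this) hS0 hcond1 hcond2
  have hpt := ugb_pt hD (A := A) (δ := δ') hT hL1 hA0 hLA hLT hδ'0.le hθ0 hN b
    (fun b => hS1 N hN2 b) hD1 hF
  rw [← hκdef] at key
  have h1 : κ * S ≤ 2 * (A / L) * ∑ s ∈ F, ‖dp N b s.im‖ ^ 2 +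
      4 * A * (1 + A) ^ 2 * D1 * θ * S := key.trans hpt
  have h2 : 4 * A * (1 + A) ^ 2 * D1 * θ * S ≤ κ / 2 * S := mul_le_mul_of_nonneg_right hθ3 hS0
  have h3 : κ / 2 * S ≤ 2 * (A / L) * ∑ s ∈ F, ‖dp N b s.im‖ ^ 2 := by linarith
  have h4 : κ / (4 * A) * L * S ≤ ∑ s ∈ F, ‖dp N b s.im‖ ^ 2 := by
    have h5 : L / (2 * A) * (κ / 2 * S) ≤
        L / (2 * A) * (2 * (A / L) * ∑ s ∈ F, ‖dp N b s.im‖ ^ 2) := by gcongr
    have e1 : L / (2 * A) * (κ / 2 * S) = κ / (4 * A) * L * S := by ring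
    have e2 : L / (2 * A) * (2 * (A / L) * ∑ s ∈ F, ‖dp N b s.im‖ ^ 2) =
        ∑ s ∈ F, ‖dp N b s.im‖ ^ 2 := by field_simp
    rw [e1, e2] at h5
    exact h5
  refine h4.trans (Finset.sum_le_sum fun s hs => ?_)
  have h5 : (1 : ℝ) ≤ mz s := by exact_mod_cast mz_pos hT1 (hF hs)
  exact le_mul_of_one_le_left (by positivity) h5

end

end Pool.Agent.Q176.UM
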